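import Pool.Agent.Helper38.LinL.Grammar

/-!
# Linear grammars with one nonterminal whose left words form a code
-/

namespace Pool.Agent.Helper75.Lin5

open Pool.Agent.Helper38.LinL

/-- `U` is a code: every word is in at most one way a product of words of `U`. -/
def IsCode {α : Type} (U : Finset (List α)) : Prop :=
  ∀ l l' : List (List α), (∀ u ∈ l, u ∈ U) → (∀ u ∈ l', u ∈ U) → l.flatten = l'.flatten → l = l'

open Classical in
/-- The set of the words `u` of the rules `A → u B v` of a grammar. -/
noncomputable def leftWords {α : Type} (G : LinearGrammar α) : Finset (List α) :=
  G.rules.image fun r => r.2.1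

/-- The grammar has one nonterminal `S`, and the words `u` of the rules `S → u S v` form a
code. -/
structure FreeLeft {α : Type} (G : LinearGrammar α) : Prop where
  one : Subsingleton G.N
  code : IsCode (leftWords G)

open Classical in
/-- The number of the rules `A → u B v` with a given word `u`. -/
noncomputable def leftMult {α : Type} (G : LinearGrammar α) (u : List α) : ℕ :=
  (G.rules.filter fun r => r.2.1 = u).card

/-- `G` is a linear grammar with one nonterminal `S` over an alphabet `α ⊕ β` which contains `α`;
the words `u` of its rules `S → u S v` are the words of `U`, a finite set of words over `α`, and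
for each `u ∈ U` there are exactly `m u` rules `S → u S v`. -/
structure Profile {α β : Type} (U : Finset (List α)) (m : List α → ℕ)
    (G : LinearGrammar (α ⊕ β)) : Prop where
  one : Subsingleton G.N
  left : (leftWords G : Set (List (α ⊕ β))) = List.map Sum.inl '' (U : Set (List α))
  mult : ∀ u ∈ U, leftMult G (u.map Sum.inl) = m u

open Classical in
/-- The grammar with the rules `S → u S v^R`, where `u ∈ U` and `v ∈ s u`, and `S → ε`, over the
disjoint union of the alphabets `α` and `{0, 1}`. Its language consists of the words `x y^R`,
where `x` is in `U^*` and `y` arises from `x` by replacing every factor `u ∈ U` by some word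
of `s u`. -/
noncomputable def subst {α : Type} (U : Finset (List α)) (s : List α → Finset (List Bool)) :
    LinearGrammar (α ⊕ Bool) where
  N := Unit
  finN := inferInstance
  start := ()
  rules := U.biUnion fun u => (s u).image fun v =>
    ((), u.map Sum.inl, (), v.reverse.map Sum.inr)
  term := {((), [])}

end Pool.Agent.Helper75.Lin5
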