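import Pool.Agent.Helper75.Lin5.Defs
import Pool.Agent.Helper38.LinL.Decomp

/-!
# Free left side without superfluous rules: the language is in logarithmic space
-/

namespace Pool.Agent.Helper75.Lin5

open Classical Pool.Agent.Helper38.LinL Pool.Agent.Helper38.LinL.LinearGrammar

variable {α : Type}

/-- The pairs `(u, v)` of the rules `A → u A v`. -/
def IsRule (G : LinearGrammar α) (A : G.N) (r : List α × List α) : Prop :=
  (A, r.1, A, r.2) ∈ G.rules

theorem derives_list {G : LinearGrammar α} (hN : Subsingleton G.N) {A B : G.N} {u v : List α}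
    (h : G.Derives A u B v) : ∃ l : List (List α × List α), (∀ r ∈ l, IsRule G A r) ∧
      u = (l.map Prod.fst).flatten ∧ v = (l.map Prod.snd).reverse.flatten := by
  induction h with
  | refl => exact ⟨[], by simp, rfl, rfl⟩
  | @step u B v u' C v' _ hr ih =>
    obtain ⟨l, h1, rfl, rfl⟩ := ih
    refine ⟨l ++ [(u', v')], ?_, by simp, by simp⟩
    intro r hr'
    rcases List.mem_append.1 hr' with hr' | hr'
    · exact h1 r hr'
    · rw [List.mem_singleton.1 hr']
      have e1 : B = A := Subsingleton.elim _ _
      have e2 : C = A := Subsingleton.elim _ _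
      rw [e1, e2] at hr
      exact hr

theorem list_derives {G : LinearGrammar α} {A : G.N} {l : List (List α × List α)}
    (h : ∀ r ∈ l, IsRule G A r) :
    G.Derives A (l.map Prod.fst).flatten A (l.map Prod.snd).reverse.flatten := by
  induction l using List.reverseRecOn with
  | nil => exact Derives.refl
  | append_singleton l r ih =>
    have h1 := ih fun r' hr' => h r' (by simp [hr'])
    have h2 := Derives.step h1 (h r (by simp))
    simpa using h2

theorem isRule_left {G : LinearGrammar α} {A : G.N} {r : List α × List α} (h : IsRule G A r) :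
    r.1 ∈ leftWords G := Finset.mem_image.2 ⟨_, h, rfl⟩

theorem code_list {G : LinearGrammar α} (hG : FreeLeft G) {A : G.N}
    {l l' : List (List α × List α)} (h : ∀ r ∈ l, IsRule G A r) (h' : ∀ r ∈ l', IsRule G A r)
    (he : (l.map Prod.fst).flatten = (l'.map Prod.fst).flatten) :
    l.map Prod.fst = l'.map Prod.fst := by
  refine hG.code _ _ ?_ ?_ he
  · intro u hu
    obtain ⟨r, hr, rfl⟩ := List.mem_map.1 hu
    exact isRule_left (h r hr)
  · intro u hu
    obtain ⟨r, hr, rfl⟩ := List.mem_map.1 hu
    exact isRule_left (h' r hr)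

theorem list_eq_of_fst {P : List α × List α → Prop}
    (hP : ∀ r r', P r → P r' → r.1 = r'.1 → r = r') :
    ∀ {l l' : List (List α × List α)}, (∀ r ∈ l, P r) → (∀ r ∈ l', P r) →
      l.map Prod.fst = l'.map Prod.fst → l = l'
  | [], [], _, _, _ => rfl
  | [], _ :: _, _, _, h => by simp at h
  | _ :: _, [], _, _, h => by simp at h
  | r :: l, r' :: l', h1, h2, h => by
    simp only [List.map_cons, List.cons.injEq] at h
    rw [hP r r' (h1 r (by simp)) (h2 r' (by simp)) h.1,
      list_eq_of_fst hP (fun r hr => h1 r (by simp [hr])) (fun r hr => h2 r (by simp [hr])) h.2]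

/-- As many rules as left words. -/
theorem rightDet_of_card {G : LinearGrammar α} (hG : FreeLeft G)
    (hc : G.rules.card = (leftWords G).card) (A : G.N) : G.RightDet A := by
  have hinj : Set.InjOn (fun r : G.N × List α × G.N × List α => r.2.1) G.rules :=
    Finset.card_image_iff.1 hc.symm
  intro u v v' h h' _
  obtain ⟨l, h1, rfl, rfl⟩ := derives_list hG.one h
  obtain ⟨l', h2, h3, rfl⟩ := derives_list hG.one h'
  have h4 := code_list hG h1 h2 h3
  have h5 : l = l' := list_eq_of_fst (P := IsRule G A) (fun r r' hr hr' he => by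
    have := hinj (Finset.mem_coe.2 hr) (Finset.mem_coe.2 hr') he
    simp only [Prod.mk.injEq, true_and] at this
    exact Prod.ext this.1 this.2) h1 h2 h4
  rw [h5]

theorem flatten_const {l : List (List α)} {u : List α} (h : ∀ x ∈ l, x = u) :
    l.flatten = (List.replicate l.length u).flatten := by
  rw [List.eq_replicate_of_mem h]
  simp

/-- At most one left word. -/
theorem leftDet_of_card {G : LinearGrammar α} (hN : Subsingleton G.N)
    (hc : (leftWords G).card ≤ 1) (A : G.N) : G.LeftDet A := by
  intro u u' v h h' hlen
  obtain ⟨l, h1, rfl, -⟩ := derives_list hN h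
  obtain ⟨l', h2, rfl, -⟩ := derives_list hN h'
  have hall : ∀ r r' : List α × List α, IsRule G A r → IsRule G A r' → r.1 = r'.1 :=
    fun r r' hr hr' => Finset.card_le_one.1 hc _ (isRule_left hr) _ (isRule_left hr')
  have key : ∀ r0 : List α × List α, IsRule G A r0 →
      (l.map Prod.fst).flatten = (l'.map Prod.fst).flatten := by
    intro r0 hr0
    have e1 := flatten_const (l := l.map Prod.fst) (u := r0.1) (by
      intro x hx
      obtain ⟨r, hr, rfl⟩ := List.mem_map.1 hx
      exact hall r r0 (h1 r hr) hr0)
    have e2 := flatten_const (l := l'.map Prod.fst) (u := r0.1) (by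
      intro x hx
      obtain ⟨r, hr, rfl⟩ := List.mem_map.1 hx
      exact hall r r0 (h2 r hr) hr0)
    rw [e1, e2] at hlen ⊢
    simp only [List.length_map, List.length_flatten, List.map_replicate, List.sum_replicate,
      smul_eq_mul] at hlen
    by_cases h0 : r0.1.length = 0
    · rw [List.length_eq_zero_iff] at h0
      simp [h0]
    · rw [List.length_map, List.length_map, Nat.eq_of_mul_eq_mul_right (by omega) hlen]
  cases l with
  | cons r l => exact key r (h1 r (by simp))
  | nil =>
    cases l' with
    | cons r l => exact key r (h2 r (by simp))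
    | nil => rfl

theorem inL_easy [Finite α] {G : LinearGrammar α} (hG : FreeLeft G)
    (h : G.rules.card = (leftWords G).card ∨ (leftWords G).card ≤ 1) : InL G.language := by
  refine inL_of_loops G fun A => ?_
  rcases h with h | h
  · exact Or.inl (rightDet_of_card hG h A)
  · exact Or.inr (Or.inl (leftDet_of_card hG.one h A))

end Pool.Agent.Helper75.Lin5
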