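import Pool.Agent.Helper75.Lin5.Easy
import Pool.Agent.Helper38.LinTwo.Easy

/-!
# Free left side and one superfluous rule: reduction to layered grid graph reachability
-/

namespace Pool.Agent.Helper75.Lin5

open Classical Pool.Agent.Helper38.LinL Pool.Agent.Helper38.LinL.LinearGrammar
open Pool.Agent.Helper38.LinTwo

variable {α : Type}

/-- Primary rules `P`, and one more rule `(u0, v2)`, where `(u0, v1)` is a primary rule. -/
structure Sys (α : Type) where
  P : Finset (List α × List α)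
  u0 : List α
  v1 : List α
  v2 : List α
  mem : (u0, v1) ∈ P
  le : v1.length ≤ v2.length
  inj : ∀ r ∈ P, ∀ r' ∈ P, r.1 = r'.1 → r = r'
  code : IsCode (P.image Prod.fst)

namespace Sys

variable (Y : Sys α)

/-- The rest of the left word, from the position `x`, is a product of left words. -/
def Fct (cL : ℕ → Option α) (a x : ℕ) : Prop :=
  ∃ l : List (List α), (∀ u ∈ l, u ∈ Y.P.image Prod.fst) ∧ x + l.flatten.length = a ∧
    Mt (fun k => cL (x + k)) l.flatten

/-- The word `u` is the next factor of the left word at the position `x`. -/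
def Ok (cL : ℕ → Option α) (a x : ℕ) (u : List α) : Prop :=
  Mt (fun k => cL (x + k)) u ∧ Y.Fct cL a (x + u.length)

theorem ok_unique {cL : ℕ → Option α} {a x : ℕ} {u u' : List α} (hu : u ∈ Y.P.image Prod.fst)
    (hu' : u' ∈ Y.P.image Prod.fst) (h : Y.Ok cL a x u) (h' : Y.Ok cL a x u') : u = u' := by
  obtain ⟨h1, l, h2, h3, h4⟩ := h
  obtain ⟨h1', l', h2', h3', h4'⟩ := h'
  have e1 : Mt (fun k => cL (x + k)) (u :: l).flatten := by
    rw [List.flatten_cons, Mt.append]
    refine ⟨h1, ?_⟩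
    simpa only [add_assoc] using h4
  have e2 : Mt (fun k => cL (x + k)) (u' :: l').flatten := by
    rw [List.flatten_cons, Mt.append]
    refine ⟨h1', ?_⟩
    simpa only [add_assoc] using h4'
  have e3 := Mt.inj e1 e2 (by simp only [List.flatten_cons, List.length_append]; omega)
  have e4 := Y.code (u :: l) (u' :: l') (by
    intro z hz
    rcases List.mem_cons.1 hz with rfl | hz
    · exact hu
    · exact h2 z hz) (by
    intro z hz
    rcases List.mem_cons.1 hz with rfl | hz
    · exact hu'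
    · exact h2' z hz) e3
  exact (List.cons.inj e4).1

theorem nil_not_mem : ([] : List α) ∉ Y.P.image Prod.fst := by
  intro h
  have := Y.code [[]] [] (by simpa using h) (by simp) (by simp)
  simp at this

/-- The position in the left word, and the length of the right word if only primary rules are
used. -/
noncomputable def st (cL : ℕ → Option α) (a : ℕ) : ℕ → ℕ × ℕ
  | 0 => (0, 0)
  | p + 1 => ((st cL a p).1 + ∑ r ∈ Y.P, ind (Y.Ok cL a (st cL a p).1 r.1) * r.1.length,
      (st cL a p).2 + ∑ r ∈ Y.P, ind (Y.Ok cL a (st cL a p).1 r.1) * r.2.length)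

theorem st_step (cL : ℕ → Option α) (a p : ℕ) : Y.st cL a (p + 1) =
    ((Y.st cL a p).1 + ∑ r ∈ Y.P, ind (Y.Ok cL a (Y.st cL a p).1 r.1) * r.1.length,
      (Y.st cL a p).2 + ∑ r ∈ Y.P, ind (Y.Ok cL a (Y.st cL a p).1 r.1) * r.2.length) := rfl

theorem st_succ {cL : ℕ → Option α} {a p : ℕ} {r : List α × List α} (hr : r ∈ Y.P)
    (h : Y.Ok cL a (Y.st cL a p).1 r.1) :
    Y.st cL a (p + 1) = ((Y.st cL a p).1 + r.1.length, (Y.st cL a p).2 + r.2.length) := by
  have key : ∀ r' ∈ Y.P, r' ≠ r → ind (Y.Ok cL a (Y.st cL a p).1 r'.1) = 0 := by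
    intro r' hr' hne
    rw [ind_eq_zero]
    intro h'
    exact hne (Y.inj r' hr' r hr (Y.ok_unique (Finset.mem_image_of_mem _ hr')
      (Finset.mem_image_of_mem _ hr) h' h))
  rw [st_step, Finset.sum_eq_single r (fun r' hr' hne => by rw [key r' hr' hne, zero_mul])
    (fun h' => absurd hr h'), Finset.sum_eq_single r
    (fun r' hr' hne => by rw [key r' hr' hne, zero_mul]) (fun h' => absurd hr h'), ind_pos h,
    one_mul, one_mul]

theorem st_le {cL : ℕ → Option α} {a : ℕ} (p : ℕ) :
    (Y.st cL a p).1 ≤ p * ∑ r ∈ Y.P, r.1.length ∧ (Y.st cL a p).2 ≤ p * ∑ r ∈ Y.P, r.2.length := by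
  induction p with
  | zero => simp [st]
  | succ p ih =>
    rw [st_step]
    have h1 : ∑ r ∈ Y.P, ind (Y.Ok cL a (Y.st cL a p).1 r.1) * r.1.length ≤
        ∑ r ∈ Y.P, r.1.length := Finset.sum_le_sum fun r _ => by
      have := ind_le (Y.Ok cL a (Y.st cL a p).1 r.1)
      nlinarith
    have h2 : ∑ r ∈ Y.P, ind (Y.Ok cL a (Y.st cL a p).1 r.1) * r.2.length ≤
        ∑ r ∈ Y.P, r.2.length := Finset.sum_le_sum fun r _ => by
      have := ind_le (Y.Ok cL a (Y.st cL a p).1 r.1)
      nlinarith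
    simp only [add_mul, one_mul]
    exact ⟨by omega, by omega⟩

/-- Use of the superfluous rule. -/
def E (cL cR : ℕ → Option α) (a i j : ℕ) : Prop :=
  Y.Ok cL a (Y.st cL a (i + j)).1 Y.u0 ∧
    Mt (fun k => cR ((Y.st cL a (i + j)).2 + j * (Y.v2.length - Y.v1.length) + k)) Y.v2.reverse

/-- Use of a primary rule. -/
def S (cL cR : ℕ → Option α) (a i j : ℕ) : Prop :=
  ∃ r ∈ Y.P, Y.Ok cL a (Y.st cL a (i + j)).1 r.1 ∧
    Mt (fun k => cR ((Y.st cL a (i + j)).2 + j * (Y.v2.length - Y.v1.length) + k)) r.2.reverse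

/-- The left word of a list of rules. -/
def Lw (l : List (List α × List α)) : List α := (l.map Prod.fst).flatten

/-- The reverse of the right word of a list of rules. -/
def Rw (l : List (List α × List α)) : List α := (l.map fun r => r.2.reverse).flatten

theorem Lw_append (l l' : List (List α × List α)) : Lw (l ++ l') = Lw l ++ Lw l' := by
  simp [Lw]

theorem Rw_append (l l' : List (List α × List α)) : Rw (l ++ l') = Rw l ++ Rw l' := by
  simp [Rw]

theorem Lw_single (r : List α × List α) : Lw [r] = r.1 := by simp [Lw]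

theorem Rw_single (r : List α × List α) : Rw [r] = r.2.reverse := by simp [Rw]

theorem fst_mem {r : List α × List α} (h : r ∈ Y.P ∨ r = (Y.u0, Y.v2)) :
    r.1 ∈ Y.P.image Prod.fst := by
  rcases h with h | rfl
  · exact Finset.mem_image_of_mem _ h
  · exact Finset.mem_image.2 ⟨_, Y.mem, rfl⟩

theorem length_le {l : List (List α × List α)} (h : ∀ r ∈ l, r ∈ Y.P ∨ r = (Y.u0, Y.v2)) :
    l.length ≤ (Lw l).length := by
  induction l with
  | nil => simp
  | cons r l ih =>
    have h1 := ih fun r hr => h r (by simp [hr])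
    have h2 := Y.fst_mem (h r (by simp))
    have h3 : r.1 ≠ [] := fun h0 => Y.nil_not_mem (h0 ▸ h2)
    have h4 : 0 < r.1.length := List.length_pos_iff.2 h3
    have h5 : Lw (r :: l) = r.1 ++ Lw l := by simp [Lw]
    rw [h5, List.length_append, List.length_cons]
    omega

theorem path_of_list {cL cR : ℕ → Option α} {a : ℕ} {l : List (List α × List α)}
    (hl : ∀ r ∈ l, r ∈ Y.P ∨ r = (Y.u0, Y.v2)) (ha : (Lw l).length = a) (hL : Mt cL (Lw l))
    (hR : Mt cR (Rw l)) (l1 l2 : List (List α × List α)) (h12 : l1 ++ l2 = l) :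
    ∃ I J, I + J = l1.length ∧ (Y.st cL a (I + J)).1 = (Lw l1).length ∧
      (Y.st cL a (I + J)).2 + J * (Y.v2.length - Y.v1.length) = (Rw l1).length ∧
      Relation.ReflTransGen (GStep (Y.E cL cR a) (Y.S cL cR a)) (0, 0) (I, J) := by
  induction l1 using List.reverseRecOn generalizing l2 with
  | nil => exact ⟨0, 0, rfl, rfl, by simp [st, Rw], Relation.ReflTransGen.refl⟩
  | append_singleton l1 r ih =>
    obtain ⟨I, J, h1, h2, h3, h4⟩ := ih (r :: l2) (by rw [← h12]; simp)
    have hr := hl r (by rw [← h12]; simp)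
    have hLw : Lw l = Lw l1 ++ (r.1 ++ Lw l2) := by
      rw [← h12, Lw_append, Lw_append, Lw_single, List.append_assoc]
    have hRw : Rw l = Rw l1 ++ (r.2.reverse ++ Rw l2) := by
      rw [← h12, Rw_append, Rw_append, Rw_single, List.append_assoc]
    rw [hLw, Mt.append, Mt.append] at hL
    rw [hRw, Mt.append, Mt.append] at hR
    have hok : Y.Ok cL a (Y.st cL a (I + J)).1 r.1 := by
      rw [h2]
      refine ⟨hL.2.1, l2.map Prod.fst, ?_, ?_, ?_⟩
      · intro u hu
        obtain ⟨r', hr', rfl⟩ := List.mem_map.1 hu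
        exact Y.fst_mem (hl r' (by rw [← h12]; simp [hr']))
      · rw [hLw, List.length_append, List.length_append] at ha
        have : ((l2.map Prod.fst).flatten).length = (Lw l2).length := rfl
        omega
      · have := hL.2.2
        simpa only [add_assoc, Lw] using this
    have hRr : Mt (fun k => cR ((Y.st cL a (I + J)).2 + J * (Y.v2.length - Y.v1.length) + k))
        r.2.reverse := by
      rw [h3]
      exact hR.2.1
    by_cases hP : r ∈ Y.P
    · have hs := Y.st_succ hP hok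
      have e : I + 1 + J = I + J + 1 := by omega
      refine ⟨I + 1, J, by simp; omega, ?_, ?_, h4.tail (GStep.south ⟨r, hP, hok, hRr⟩)⟩
      · rw [e, hs, Lw_append, Lw_single, List.length_append, h2]
      · rw [e, hs, Rw_append, Rw_single, List.length_append, List.length_reverse, ← h3]
        simp only
        omega
    · have hr' := hr.resolve_left hP
      subst hr'
      have hs := Y.st_succ Y.mem hok
      have e : I + (J + 1) = I + J + 1 := by omega
      refine ⟨I, J + 1, by simp; omega, ?_, ?_, h4.tail (GStep.east ⟨hok, hRr⟩)⟩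
      · rw [e, hs, Lw_append, Lw_single, List.length_append, h2]
      · rw [e, hs, Rw_append, Rw_single, List.length_append, List.length_reverse, ← h3]
        simp only
        have := Y.le
        have e2 : (J + 1) * (Y.v2.length - Y.v1.length) =
            J * (Y.v2.length - Y.v1.length) + (Y.v2.length - Y.v1.length) := by ring
        omega

theorem list_of_path {cL cR : ℕ → Option α} {a : ℕ} {c : ℕ × ℕ}
    (h : Relation.ReflTransGen (GStep (Y.E cL cR a) (Y.S cL cR a)) (0, 0) c) :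
    ∃ l : List (List α × List α), (∀ r ∈ l, r ∈ Y.P ∨ r = (Y.u0, Y.v2)) ∧
      (Lw l).length = (Y.st cL a (c.1 + c.2)).1 ∧
      (Rw l).length = (Y.st cL a (c.1 + c.2)).2 + c.2 * (Y.v2.length - Y.v1.length) ∧
      Mt cL (Lw l) ∧ Mt cR (Rw l) := by
  induction h with
  | refl => exact ⟨[], by simp, rfl, by simp [st, Rw], Mt.nil, Mt.nil⟩
  | tail _ hs ih =>
    obtain ⟨l, h1, h2, h3, h4, h5⟩ := ih
    cases hs with
    | @east i j he =>
      obtain ⟨hok, hR⟩ := he
      have hs := Y.st_succ Y.mem hok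
      have e : i + (j + 1) = i + j + 1 := by omega
      simp only at h2 h3
      refine ⟨l ++ [(Y.u0, Y.v2)], ?_, ?_, ?_, ?_, ?_⟩
      · intro r hr
        rcases List.mem_append.1 hr with hr | hr
        · exact h1 r hr
        · exact Or.inr (List.mem_singleton.1 hr)
      · simp only
        rw [e, hs, Lw_append, Lw_single, List.length_append, h2]
      · simp only
        rw [e, hs, Rw_append, Rw_single, List.length_append, List.length_reverse, h3]
        simp only
        have := Y.le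
        have e2 : (j + 1) * (Y.v2.length - Y.v1.length) =
            j * (Y.v2.length - Y.v1.length) + (Y.v2.length - Y.v1.length) := by ring
        omega
      · rw [Lw_append, Lw_single, Mt.append, h2]
        exact ⟨h4, hok.1⟩
      · rw [Rw_append, Rw_single, Mt.append, h3]
        exact ⟨h5, hR⟩
    | @south i j he =>
      obtain ⟨r, hP, hok, hR⟩ := he
      have hs := Y.st_succ hP hok
      have e : i + 1 + j = i + j + 1 := by omega
      simp only at h2 h3
      refine ⟨l ++ [r], ?_, ?_, ?_, ?_, ?_⟩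
      · intro r' hr
        rcases List.mem_append.1 hr with hr | hr
        · exact h1 r' hr
        · rw [List.mem_singleton.1 hr]
          exact Or.inl hP
      · simp only
        rw [e, hs, Lw_append, Lw_single, List.length_append, h2]
      · simp only
        rw [e, hs, Rw_append, Rw_single, List.length_append, List.length_reverse, h3]
        simp only
        omega
      · rw [Lw_append, Lw_single, Mt.append, h2]
        exact ⟨h4, hok.1⟩
      · rw [Rw_append, Rw_single, Mt.append, h3]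
        exact ⟨h5, hR⟩

theorem list_iff_path {cL cR : ℕ → Option α} {a b : ℕ} :
    (∃ l : List (List α × List α), (∀ r ∈ l, r ∈ Y.P ∨ r = (Y.u0, Y.v2)) ∧
      (Lw l).length = a ∧ (Rw l).length = b ∧ Mt cL (Lw l) ∧ Mt cR (Rw l)) ↔
    ∃ I < a + 1, ∃ J < a + 1, ((Y.st cL a (I + J)).1 = a ∧
      (Y.st cL a (I + J)).2 + J * (Y.v2.length - Y.v1.length) = b) ∧
      Relation.ReflTransGen (GStep (Y.E cL cR a) (Y.S cL cR a)) (0, 0) (I, J) := by
  constructor
  · rintro ⟨l, h1, h2, h3, h4, h5⟩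
    obtain ⟨I, J, h6, h7, h8, h9⟩ := Y.path_of_list h1 h2 h4 h5 l [] (by simp)
    have h10 := Y.length_le h1
    exact ⟨I, by omega, J, by omega, ⟨by rw [h7, h2], by rw [h8, h3]⟩, h9⟩
  · rintro ⟨I, _, J, _, ⟨h1, h2⟩, h3⟩
    obtain ⟨l, h4, h5, h6, h7, h8⟩ := Y.list_of_path h3
    simp only at h5 h6
    exact ⟨l, h4, by rw [h5, h1], by rw [h6, h2], h7, h8⟩

end Sys

section FP

variable {X Z : Type} [Cod X] [Cod Z] [Finite α] (Y : Sys α)

/-- The grammar `S → u S`, `u ∈ U`. -/
noncomputable def gU (U : Finset (List α)) : LinearGrammar α where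
  N := Unit
  finN := inferInstance
  start := ()
  rules := U.image fun u => ((), u, (), [])
  term := ∅

omit [Finite α] in
theorem isRule_gU {U : Finset (List α)} {r : List α × List α} :
    IsRule (gU U) () r ↔ r.1 ∈ U ∧ r.2 = [] := by
  show (((), r.1, (), r.2) : Unit × List α × Unit × List α) ∈
    U.image (fun u => (((), u, (), []) : Unit × List α × Unit × List α)) ↔ _
  rw [Finset.mem_image]
  constructor
  · rintro ⟨u, hu, h⟩
    simp only [Prod.mk.injEq, true_and] at h
    rw [← h.1, ← h.2]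
    exact ⟨hu, rfl⟩
  · rintro ⟨h1, h2⟩
    exact ⟨r.1, h1, by rw [h2]⟩

omit [Finite α] in
theorem flatten_nil_of {l : List (List α)} (h : ∀ u ∈ l, u = []) : l.flatten = [] := by
  rw [List.flatten_eq_nil_iff]
  exact h

omit [Finite α] in
theorem gU_derives {U : Finset (List α)} {A B : (gU U).N} {u v : List α}
    (h : (gU U).Derives A u B v) : v = [] ∧ ∃ l : List (List α), (∀ x ∈ l, x ∈ U) ∧
      u = l.flatten := by
  obtain ⟨l, h1, rfl, rfl⟩ := derives_list (G := gU U) (inferInstanceAs (Subsingleton Unit)) h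
  refine ⟨flatten_nil_of ?_, l.map Prod.fst, ?_, rfl⟩
  · intro u hu
    obtain ⟨r, hr, rfl⟩ := List.mem_map.1 (List.mem_reverse.1 hu)
    exact (isRule_gU.1 (h1 r hr)).2
  · intro u hu
    obtain ⟨r, hr, rfl⟩ := List.mem_map.1 hu
    exact (isRule_gU.1 (h1 r hr)).1

omit [Finite α] in
theorem derives_gU {U : Finset (List α)} {l : List (List α)} (h : ∀ x ∈ l, x ∈ U) :
    (gU U).Derives () l.flatten () [] := by
  have h1 := list_derives (G := gU U) (A := ()) (l := l.map fun u => (u, [])) (by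
    intro r hr
    obtain ⟨u, hu, rfl⟩ := List.mem_map.1 hr
    exact isRule_gU.2 ⟨h u hu, rfl⟩)
  have h2 : ((l.map fun u => (u, ([] : List α))).map Prod.fst).flatten = l.flatten := by
    rw [List.map_map]
    congr 1
    exact List.map_id' _
  have h3 : ((l.map fun u => (u, ([] : List α))).map Prod.snd).reverse.flatten = [] := by
    refine flatten_nil_of fun u hu => ?_
    obtain ⟨r, hr, rfl⟩ := List.mem_map.1 (List.mem_reverse.1 hu)
    obtain ⟨x, -, rfl⟩ := List.mem_map.1 hr
    rfl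
  rw [h2, h3] at h1
  exact h1

theorem FP.fct {posL : List α → X × ℕ → ℕ} {a : List α → X → ℕ} (hL : Fn posL) (ha : Fn a) :
    FP fun w (z : X × ℕ) => Y.Fct (rd posL w z.1) (a w z.1) z.2 := by
  have hdet : (gU (Y.P.image Prod.fst)).RightDet () := fun u v v' h h' _ => by
    rw [(gU_derives h).1, (gU_derives h').1]
  have hx : Fn fun (w : List α) (z : X × ℕ) => z.2 := Fn.id.snd
  have ha' : Fn fun w (z : X × ℕ) => a w z.1 := ha.comp Fn.id.fst
  have hposL : Fn fun w (z : (X × ℕ) × ℕ) => posL w (z.1.1, z.1.2 + z.2) :=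
    hL.comp (g := fun (w : List α) (z : (X × ℕ) × ℕ) => (z.1.1, z.1.2 + z.2))
      (Fn.id.fst.fst.pair (Fn.id.fst.snd.add Fn.id.snd))
  have h1 := FP.pair_of_rightDet (gU (Y.P.image Prod.fst)) hdet
    (posL := fun w (z : (X × ℕ) × ℕ) => posL w (z.1.1, z.1.2 + z.2))
    (posR := fun w (z : (X × ℕ) × ℕ) => 0) (a := fun w z => a w z.1 - z.2)
    (b := fun w z => 0) hposL Fn.zero (ha'.sub hx) Fn.zero
  refine ((FP.le hx ha').and h1).congr fun w z => ?_
  constructor
  · rintro ⟨l, h2, h3, h4⟩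
    refine ⟨by omega, l.flatten, [], derives_gU h2, by omega, rfl, h4, Mt.nil⟩
  · rintro ⟨h2, u, v, h3, h4, -, h5, -⟩
    obtain ⟨-, l, h6, rfl⟩ := gU_derives h3
    exact ⟨l, h6, by omega, h5⟩

theorem FP.ok {posL : List α → X × ℕ → ℕ} {a : List α → X → ℕ} (hL : Fn posL) (ha : Fn a)
    {px : List α → Z → X} (hpx : Fn px) {i : List α → Z → ℕ} (hi : Fn i) (u : List α) :
    FP fun w z => Y.Ok (rd posL w (px w z)) (a w (px w z)) (i w z) u := by
  have hLy : Fn fun (w : List α) (z : Z × ℕ) => posL w (px w z.1, z.2) :=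
    hL.comp ((hpx.comp Fn.id.fst).pair Fn.id.snd)
  exact (FP.mt hLy hi u).and ((FP.fct Y hL ha).comp (g := fun w z => (px w z, i w z + u.length))
    (hpx.pair (hi.add (Fn.const _))))

omit [Finite α] in
theorem Fn.ind {P : List α → X → Prop} (h : FP P) : Fn fun w x => ind (P w x) := h

theorem Fn.st {posL : List α → X × ℕ → ℕ} {a : List α → X → ℕ} (hL : Fn posL) (ha : Fn a) :
    Fn fun w (z : X × ℕ) => Y.st (rd posL w z.1) (a w z.1) z.2 := by
  refine Fn.natRec (T := fun w (z : X × ℕ) => z.2)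
    (F := fun w (z : X × ℕ) t => Y.st (rd posL w z.1) (a w z.1) t)
    (step := fun w (p : (X × ℕ) × ℕ × ℕ × ℕ) =>
      (p.2.2.1 + ∑ r ∈ Y.P, Helper38.LinL.ind (Y.Ok (rd posL w p.1.1) (a w p.1.1) p.2.2.1 r.1) *
        r.1.length,
      p.2.2.2 + ∑ r ∈ Y.P, Helper38.LinL.ind (Y.Ok (rd posL w p.1.1) (a w p.1.1) p.2.2.1 r.1) *
        r.2.length)) Fn.id.snd ?_ ?_ (fun w x t => rfl) ?_
  · exact Fn.zero.pair Fn.zero
  · have h1 : Fn fun (w : List α) (p : (X × ℕ) × ℕ × ℕ × ℕ) => p.2.2.1 := Fn.id.snd.snd.fst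
    have h2 : Fn fun (w : List α) (p : (X × ℕ) × ℕ × ℕ × ℕ) => p.2.2.2 := Fn.id.snd.snd.snd
    have h3 : ∀ u : List α, Fn fun (w : List α) (p : (X × ℕ) × ℕ × ℕ × ℕ) =>
        Helper38.LinL.ind (Y.Ok (rd posL w p.1.1) (a w p.1.1) p.2.2.1 u) := fun u =>
      FP.ok Y hL ha Fn.id.fst.fst h1 u
    exact (h1.add (Fn.sumF _ fun r _ => (h3 r.1).mul (Fn.const _))).pair
      (h2.add (Fn.sumF _ fun r _ => (h3 r.1).mul (Fn.const _)))
  · refine ⟨fun w z => z.2 * (∑ r ∈ Y.P, r.1.length) + z.2 * ∑ r ∈ Y.P, r.2.length,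
      (Fn.add (Fn.mul Fn.id.snd (Fn.const _)) (Fn.mul Fn.id.snd (Fn.const _))).pb,
      fun w z t ht => ?_⟩
    rw [norm'_prod, norm'_nat, norm'_nat]
    obtain ⟨h1, h2⟩ := Y.st_le (cL := rd posL w z.1) (a := a w z.1) t
    have h3 : t * ∑ r ∈ Y.P, r.1.length ≤ z.2 * ∑ r ∈ Y.P, r.1.length :=
      Nat.mul_le_mul_right _ ht
    have h4 : t * ∑ r ∈ Y.P, r.2.length ≤ z.2 * ∑ r ∈ Y.P, r.2.length :=
      Nat.mul_le_mul_right _ ht
    show _ ≤ z.2 * (∑ r ∈ Y.P, r.1.length) + z.2 * ∑ r ∈ Y.P, r.2.length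
    omega

/-- Reachability in grid graphs given by logarithmic space predicates. -/
theorem FP.grid (h : InL LGGR) {I J : List α → X → ℕ} (hI : Fn I) (hJ : Fn J)
    {E S : List α → X × ℕ × ℕ → Prop} (hE : FP E) (hS : FP S) :
    FP fun w x => Relation.ReflTransGen (GStep (fun i j => E w (x, i, j))
      (fun i j => S w (x, i, j))) (0, 0) (I w x, J w x) := by
  have hn : Fn fun w x => I w x + J w x + 1 := (hI.add hJ).succ
  have h1 : FP fun w x => gridWord (I w x + J w x + 1) (fun i j => E w (x, i, j))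
      (fun i j => S w (x, i, j)) (I w x) (J w x) ∈ LGGR := by
    refine FP.inL_comp h ?_ ?_
    · simp only [gridWord_length]
      exact hn.mul hn
    · rintro ⟨b1, b2, b3⟩
      have hN : Fn fun w (z : X × ℕ) => I w z.1 + J w z.1 + 1 := hn.comp Fn.id.fst
      have hm : Fn fun (w : List α) (z : X × ℕ) => z.2 := Fn.id.snd
      have hi := hm.div hN
      have hj := hm.mod hN
      have hE' : FP fun w (z : X × ℕ) => E w (z.1, z.2 / (I w z.1 + J w z.1 + 1),
        z.2 % (I w z.1 + J w z.1 + 1)) := hE.comp (Fn.id.fst.pair (hi.pair hj))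
      have hS' : FP fun w (z : X × ℕ) => S w (z.1, z.2 / (I w z.1 + J w z.1 + 1),
        z.2 % (I w z.1 + J w z.1 + 1)) := hS.comp (Fn.id.fst.pair (hi.pair hj))
      refine ((FP.lt hm (hN.mul hN)).and ((FP.decide_eq hE' b1).and ((FP.decide_eq hS' b2).and
        (FP.decide_eq ((FP.eq hi (hI.comp Fn.id.fst)).and (FP.eq hj (hJ.comp Fn.id.fst)))
          b3)))).congr fun w z => ?_
      rw [gridWord_get]
      split_ifs with h
      · simp only [Option.some.injEq, Prod.mk.injEq, h, true_and]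
      · simp [h]
  exact h1.congr fun w x => (gridWord_mem (by omega) (by omega)).symm

theorem FP.sys (h : InL LGGR) {posL posR : List α → X × ℕ → ℕ} {a b : List α → X → ℕ}
    (hL : Fn posL) (hR : Fn posR) (ha : Fn a) (hb : Fn b) :
    FP fun w x => ∃ l : List (List α × List α), (∀ r ∈ l, r ∈ Y.P ∨ r = (Y.u0, Y.v2)) ∧
      (Sys.Lw l).length = a w x ∧ (Sys.Rw l).length = b w x ∧
      Mt (rd posL w x) (Sys.Lw l) ∧ Mt (rd posR w x) (Sys.Rw l) := by
  have hst := Fn.st Y hL ha
  -- the edges, parameters `(x, i, j)`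
  have hx : Fn fun (w : List α) (z : X × ℕ × ℕ) => z.1 := Fn.id.fst
  have hj : Fn fun (w : List α) (z : X × ℕ × ℕ) => z.2.2 := Fn.id.snd.snd
  have hij : Fn fun (w : List α) (z : X × ℕ × ℕ) => z.2.1 + z.2.2 :=
    Fn.id.snd.fst.add Fn.id.snd.snd
  have hst' : Fn fun (w : List α) (z : X × ℕ × ℕ) =>
      Y.st (rd posL w z.1) (a w z.1) (z.2.1 + z.2.2) := hst.comp (hx.pair hij)
  have hq : Fn fun (w : List α) (z : X × ℕ × ℕ) =>
      (Y.st (rd posL w z.1) (a w z.1) (z.2.1 + z.2.2)).2 +
        z.2.2 * (Y.v2.length - Y.v1.length) := hst'.snd.add (hj.mul (Fn.const _))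
  have hRy : Fn fun (w : List α) (z : (X × ℕ × ℕ) × ℕ) => posR w (z.1.1, z.2) :=
    hR.comp (Fn.id.fst.fst.pair Fn.id.snd)
  have hE : FP fun w (z : X × ℕ × ℕ) => Y.E (rd posL w z.1) (rd posR w z.1) (a w z.1) z.2.1 z.2.2 :=
    (FP.ok Y hL ha hx hst'.fst Y.u0).and (FP.mt hRy hq Y.v2.reverse)
  have hS : FP fun w (z : X × ℕ × ℕ) => Y.S (rd posL w z.1) (rd posR w z.1) (a w z.1) z.2.1 z.2.2 :=
    FP.bexF _ fun r _ => (FP.ok Y hL ha hx hst'.fst r.1).and (FP.mt hRy hq r.2.reverse)
  refine FP.congr (P := fun w x => ∃ I < a w x + 1, ∃ J < a w x + 1,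
    ((Y.st (rd posL w x) (a w x) (I + J)).1 = a w x ∧
      (Y.st (rd posL w x) (a w x) (I + J)).2 + J * (Y.v2.length - Y.v1.length) = b w x) ∧
      Relation.ReflTransGen (GStep (Y.E (rd posL w x) (rd posR w x) (a w x))
        (Y.S (rd posL w x) (rd posR w x) (a w x))) (0, 0) (I, J)) ?_ fun w x => Y.list_iff_path
  refine FP.bex (b := fun w x => a w x + 1) ha.succ
    (P := fun w (z : X × ℕ) => ∃ J < a w z.1 + 1,
    ((Y.st (rd posL w z.1) (a w z.1) (z.2 + J)).1 = a w z.1 ∧
      (Y.st (rd posL w z.1) (a w z.1) (z.2 + J)).2 + J * (Y.v2.length - Y.v1.length) = b w z.1) ∧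
      Relation.ReflTransGen (GStep (Y.E (rd posL w z.1) (rd posR w z.1) (a w z.1))
        (Y.S (rd posL w z.1) (rd posR w z.1) (a w z.1))) (0, 0) (z.2, J)) ?_
  refine FP.bex (b := fun w (z : X × ℕ) => a w z.1 + 1) (ha.comp Fn.id.fst).succ
    (P := fun w (z : (X × ℕ) × ℕ) =>
    ((Y.st (rd posL w z.1.1) (a w z.1.1) (z.1.2 + z.2)).1 = a w z.1.1 ∧
      (Y.st (rd posL w z.1.1) (a w z.1.1) (z.1.2 + z.2)).2 + z.2 * (Y.v2.length - Y.v1.length) =
        b w z.1.1) ∧
      Relation.ReflTransGen (GStep (Y.E (rd posL w z.1.1) (rd posR w z.1.1) (a w z.1.1))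
        (Y.S (rd posL w z.1.1) (rd posR w z.1.1) (a w z.1.1))) (0, 0) (z.1.2, z.2)) ?_
  have gI : Fn fun (w : List α) (z : (X × ℕ) × ℕ) => z.1.2 := Fn.id.fst.snd
  have gJ : Fn fun (w : List α) (z : (X × ℕ) × ℕ) => z.2 := Fn.id.snd
  have gx : Fn fun (w : List α) (z : (X × ℕ) × ℕ) => z.1.1 := Fn.id.fst.fst
  have gst : Fn fun (w : List α) (z : (X × ℕ) × ℕ) =>
      Y.st (rd posL w z.1.1) (a w z.1.1) (z.1.2 + z.2) := hst.comp (gx.pair (gI.add gJ))
  have ga : Fn fun (w : List α) (z : (X × ℕ) × ℕ) => a w z.1.1 := ha.comp gx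
  have gb : Fn fun (w : List α) (z : (X × ℕ) × ℕ) => b w z.1.1 := hb.comp gx
  refine ((FP.eq gst.fst ga).and (FP.eq (gst.snd.add (gJ.mul (Fn.const _))) gb)).and ?_
  have hE' : FP fun w (z : ((X × ℕ) × ℕ) × ℕ × ℕ) =>
      Y.E (rd posL w z.1.1.1) (rd posR w z.1.1.1) (a w z.1.1.1) z.2.1 z.2.2 :=
    hE.comp (g := fun (w : List α) (z : ((X × ℕ) × ℕ) × ℕ × ℕ) => (z.1.1.1, z.2.1, z.2.2))
      (Fn.id.fst.fst.fst.pair (Fn.id.snd.fst.pair Fn.id.snd.snd))
  have hS' : FP fun w (z : ((X × ℕ) × ℕ) × ℕ × ℕ) =>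
      Y.S (rd posL w z.1.1.1) (rd posR w z.1.1.1) (a w z.1.1.1) z.2.1 z.2.2 :=
    hS.comp (g := fun (w : List α) (z : ((X × ℕ) × ℕ) × ℕ × ℕ) => (z.1.1.1, z.2.1, z.2.2))
      (Fn.id.fst.fst.fst.pair (Fn.id.snd.fst.pair Fn.id.snd.snd))
  exact FP.grid h gI gJ hE' hS'

omit [Finite α] in
theorem exists_sys {G : LinearGrammar α} (hG : FreeLeft G)
    (hc : G.rules.card = (leftWords G).card + 1) (A : G.N) :
    ∃ Y : Sys α, ∀ r, IsRule G A r ↔ r ∈ Y.P ∨ r = (Y.u0, Y.v2) := by
  have hN := hG.one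
  have hni : ¬ Set.InjOn (fun r : G.N × List α × G.N × List α => r.2.1) G.rules := by
    intro h
    have := Finset.card_image_iff.2 h
    unfold leftWords at hc
    omega
  unfold Set.InjOn at hni
  push Not at hni
  obtain ⟨r1, h1, r2, h2, h12, hne⟩ := hni
  have h1' := Finset.mem_coe.1 h1
  have h2' := Finset.mem_coe.1 h2
  have key : ∀ r1 r2 : G.N × List α × G.N × List α, r1 ∈ G.rules → r2 ∈ G.rules →
      r1.2.1 = r2.2.1 → r1 ≠ r2 → r1.2.2.2.length ≤ r2.2.2.2.length →
      ∃ Y : Sys α, ∀ r, IsRule G A r ↔ r ∈ Y.P ∨ r = (Y.u0, Y.v2) := by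
    intro r1 r2 h1 h2 h12 hne hle
    have h1e : r1 ∈ G.rules.erase r2 := Finset.mem_erase.2 ⟨hne, h1⟩
    have himg : (G.rules.erase r2).image (fun r => r.2.1) = leftWords G := by
      refine Finset.Subset.antisymm (Finset.image_subset_image (Finset.erase_subset _ _)) ?_
      intro u hu
      obtain ⟨r, hr, rfl⟩ := Finset.mem_image.1 hu
      by_cases hr2 : r = r2
      · rw [hr2, ← h12]
        exact Finset.mem_image_of_mem _ h1e
      · exact Finset.mem_image_of_mem _ (Finset.mem_erase.2 ⟨hr2, hr⟩)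
    have hinj : Set.InjOn (fun r : G.N × List α × G.N × List α => r.2.1)
        (G.rules.erase r2 : Finset _) := by
      rw [← Finset.card_image_iff, himg, Finset.card_erase_of_mem h2, hc]
      omega
    refine ⟨{
      P := (G.rules.erase r2).image fun r => (r.2.1, r.2.2.2)
      u0 := r1.2.1
      v1 := r1.2.2.2
      v2 := r2.2.2.2
      mem := Finset.mem_image_of_mem _ h1e
      le := hle
      inj := ?_
      code := ?_ }, ?_⟩
    · intro p hp p' hp' he
      obtain ⟨r, hr, rfl⟩ := Finset.mem_image.1 hp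
      obtain ⟨r', hr', rfl⟩ := Finset.mem_image.1 hp'
      have := hinj (Finset.mem_coe.2 hr) (Finset.mem_coe.2 hr') he
      rw [this]
    · rw [Finset.image_image]
      have : (Prod.fst ∘ fun r : G.N × List α × G.N × List α => (r.2.1, r.2.2.2)) =
          fun r => r.2.1 := rfl
      rw [this, himg]
      exact hG.code
    · intro r
      simp only
      constructor
      · intro hr
        by_cases hr2 : ((A, r.1, A, r.2) : G.N × List α × G.N × List α) = r2
        · right
          rw [← hr2, h12, ← hr2]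
        · left
          exact Finset.mem_image.2 ⟨_, Finset.mem_erase.2 ⟨hr2, hr⟩, rfl⟩
      · rintro (hr | rfl)
        · obtain ⟨⟨A1, u, A2, v⟩, hr', rfl⟩ := Finset.mem_image.1 hr
          have e1 : A1 = A := Subsingleton.elim _ _
          have e2 : A2 = A := Subsingleton.elim _ _
          subst e1
          subst e2
          exact (Finset.mem_erase.1 hr').2
        · obtain ⟨A1, u, A2, v⟩ := r2
          have e1 : A1 = A := Subsingleton.elim _ _
          have e2 : A2 = A := Subsingleton.elim _ _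
          have e3 : ((A, r1.2.1, A, v) : G.N × List α × G.N × List α) = (A1, u, A2, v) := by
            rw [e1, e2, h12]
          show (A, r1.2.1, A, v) ∈ G.rules
          rw [e3]
          exact h2
  rcases le_total r1.2.2.2.length r2.2.2.2.length with hle | hle
  · exact key r1 r2 h1' h2' h12 hne hle
  · exact key r2 r1 h2' h1' h12.symm hne.symm hle

/-- Free left side and at most one superfluous rule. -/
theorem inL_of_lggr {G : LinearGrammar α} (hG : FreeLeft G)
    (hc : G.rules.card ≤ (leftWords G).card + 1) (h : InL LGGR) : InL G.language := by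
  rcases Nat.lt_or_ge (leftWords G).card G.rules.card with h0 | h0
  · refine inL_of_loopsInL fun A => ?_
    obtain ⟨Y, hY⟩ := exists_sys hG (by omega) A
    intro X _ posL posR a b hL hR ha hb
    refine (FP.sys Y h hL hR ha hb).congr fun w x => ?_
    have hrev : ∀ l : List (List α × List α),
        ((l.map Prod.snd).reverse.flatten).reverse = Sys.Rw l := by
      intro l
      rw [List.reverse_flatten, List.map_reverse, List.reverse_reverse, List.map_map]
      rfl
    constructor
    · rintro ⟨u, v, h1, h2, h3, h4, h5⟩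
      obtain ⟨l, h6, rfl, rfl⟩ := derives_list hG.one h1
      refine ⟨l, fun r hr => (hY r).1 (h6 r hr), h2, ?_, h4, ?_⟩
      · rw [← hrev, List.length_reverse, h3]
      · rw [← hrev]
        exact h5
    · rintro ⟨l, h1, h2, h3, h4, h5⟩
      refine ⟨_, _, list_derives fun r hr => (hY r).2 (h1 r hr), h2, ?_, h4, ?_⟩
      · rw [← hrev, List.length_reverse] at h3
        exact h3
      · rw [hrev]
        exact h5
  · exact inL_easy hG (Or.inl (le_antisymm h0 Finset.card_image_le))

end FP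

end Pool.Agent.Helper75.Lin5
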