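import Pool.Agent.Helper75.Lin5.Defs
import Pool.Agent.Helper75.Lin4.Final

/-!
# Logarithmic space reductions: concatenations of words of different lengths
-/

namespace Pool.Agent.Helper75.Lin5

open Classical Pool.Agent.Helper38.LinL Pool.Agent.Helper38.LinL.LinearGrammar
open Pool.Agent.Helper75.Lin4 (FL)

section lists

variable {β : Type}

theorem length_flatMap_range (F : ℕ → List β) (n : ℕ) :
    ((List.range n).flatMap F).length = ∑ j ∈ Finset.range n, (F j).length := by
  induction n with
  | zero => simp
  | succ n ih =>
    rw [List.range_succ, List.flatMap_append, List.length_append, ih, Finset.sum_range_succ]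
    simp

theorem getElem?_flatMap_range' (F : ℕ → List β) (b : β) (n m : ℕ) :
    ((List.range n).flatMap F)[m]? = some b ↔
      ∃ i < n, (∑ j ∈ Finset.range i, (F j).length) ≤ m ∧
        (F i)[m - ∑ j ∈ Finset.range i, (F j).length]? = some b := by
  induction n with
  | zero => simp
  | succ n ih =>
    have hl := length_flatMap_range F n
    rw [List.range_succ, List.flatMap_append]
    have e : List.flatMap F [n] = F n := by simp
    rw [e]
    rcases Nat.lt_or_ge m (∑ j ∈ Finset.range n, (F j).length) with h | h
    · rw [List.getElem?_append_left (by rw [hl]; exact h), ih]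
      constructor
      · rintro ⟨i, hi, h1, h2⟩
        exact ⟨i, by omega, h1, h2⟩
      · rintro ⟨i, hi, h1, h2⟩
        refine ⟨i, ?_, h1, h2⟩
        by_contra hcon
        have : i = n := by omega
        subst this
        omega
    · rw [List.getElem?_append_right (by rw [hl]; exact h), hl]
      constructor
      · intro h1
        exact ⟨n, by omega, h, h1⟩
      · rintro ⟨i, hi, h1, h2⟩
        rcases Nat.lt_or_ge i n with h3 | h3
        · exfalso
          obtain ⟨h4, -⟩ := List.getElem?_eq_some_iff.1 h2
          have h5 : ∑ j ∈ Finset.range (i + 1), (F j).length ≤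
              ∑ j ∈ Finset.range n, (F j).length :=
            Finset.sum_le_sum_of_subset (Finset.range_mono (by omega))
          rw [Finset.sum_range_succ] at h5
          omega
        · have : i = n := by omega
          subst this
          exact h2

/-- A function of letters, on optional letters. -/
def ol {α : Type} (h : α → List β) : Option α → List β
  | none => []
  | some a => h a

/-- Apply `hL` to the first `i` letters and `hR` to the others. -/
def splitWord {α : Type} (hL hR : α → List β) (w : List α) (i : ℕ) : List β :=
  (List.range w.length).flatMap fun j => if j < i then ol hL w[j]? else ol hR w[j]?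

theorem splitWord_eq {α : Type} (hL hR : α → List β) (w : List α) (i : ℕ) :
    splitWord hL hR w i = (w.take i).flatMap hL ++ (w.drop i).flatMap hR := by
  unfold splitWord
  induction w using List.reverseRecOn with
  | nil => simp
  | append_singleton w a ih =>
    have h1 : (List.range w.length).flatMap (fun j => if j < i then ol hL (w ++ [a])[j]? else
        ol hR (w ++ [a])[j]?) = (List.range w.length).flatMap
        (fun j => if j < i then ol hL w[j]? else ol hR w[j]?) := by
      rw [List.flatMap_def, List.flatMap_def]
      congr 1
      refine List.map_congr_left fun j hj => ?_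
      rw [List.getElem?_append_left (List.mem_range.1 hj)]
    rw [List.length_append, List.length_singleton, List.range_succ, List.flatMap_append, h1, ih]
    have h2 : (w ++ [a])[w.length]? = some a := by simp
    rw [List.flatMap_singleton, h2]
    rcases Nat.lt_or_ge w.length i with h | h
    · have e1 : w.take i = w := List.take_of_length_le (by omega)
      have e2 : w.drop i = [] := List.drop_of_length_le (by omega)
      have e3 : (w ++ [a]).take i = w ++ [a] :=
        List.take_of_length_le (by rw [List.length_append, List.length_singleton]; omega)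
      have e4 : (w ++ [a]).drop i = [] :=
        List.drop_of_length_le (by rw [List.length_append, List.length_singleton]; omega)
      rw [if_pos h, e1, e2, e3, e4]
      simp [ol]
    · rw [if_neg (by omega), List.take_append_of_le_length h, List.drop_append_of_le_length h]
      simp [ol]

end lists

section FL

variable {α : Type} {X Y : Type} [Cod X] [Cod Y] {β : Type}

theorem FL.bindV {n : List α → Y → ℕ} (hn : Fn n) {F : List α → Y × ℕ → List β}
    (hF : FL F) : FL fun w y => (List.range (n w y)).flatMap fun i => F w (y, i) := by
  have hsum : ∀ {Z : Type} [Cod Z] {m : List α → Z → ℕ} {g : List α → Z → Y}, Fn m → Fn g →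
      Fn fun w z => ∑ j ∈ Finset.range (m w z), (F w (g w z, j)).length := by
    intro Z _ m g hm hg
    exact Fn.bsum hm (f := fun w (p : Z × ℕ) => (F w (g w p.1, p.2)).length)
      (hF.len.comp (g := fun w (p : Z × ℕ) => (g w p.1, p.2)) ((hg.comp Fn.id.fst).pair Fn.id.snd))
  refine ⟨Lin4.Fn.congr' (hsum hn Fn.id) fun w y => length_flatMap_range _ _, fun b => ?_⟩
  refine FP.congr (P := fun w (z : Y × ℕ) => ∃ i < n w z.1,
    (∑ j ∈ Finset.range i, (F w (z.1, j)).length) ≤ z.2 ∧
      (F w (z.1, i))[z.2 - ∑ j ∈ Finset.range i, (F w (z.1, j)).length]? = some b) ?_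
    fun w z => getElem?_flatMap_range' _ _ _ _
  refine FP.bex (b := fun w (z : Y × ℕ) => n w z.1) (hn.comp Fn.id.fst)
    (P := fun w (p : (Y × ℕ) × ℕ) =>
      (∑ j ∈ Finset.range p.2, (F w (p.1.1, j)).length) ≤ p.1.2 ∧
      (F w (p.1.1, p.2))[p.1.2 - ∑ j ∈ Finset.range p.2, (F w (p.1.1, j)).length]? = some b) ?_
  have hi : Fn fun (w : List α) (p : (Y × ℕ) × ℕ) => p.2 := Fn.id.snd
  have hm : Fn fun (w : List α) (p : (Y × ℕ) × ℕ) => p.1.2 := Fn.id.fst.snd
  have hy : Fn fun (w : List α) (p : (Y × ℕ) × ℕ) => p.1.1 := Fn.id.fst.fst
  have hs := hsum hi hy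
  exact (FP.le hs hm).and ((hF.get b).comp
    (g := fun w (p : (Y × ℕ) × ℕ) => ((p.1.1, p.2),
      p.1.2 - ∑ j ∈ Finset.range p.2, (F w (p.1.1, j)).length))
    ((hy.pair hi).pair (hm.sub hs)))

theorem FL.ite {P : List α → Y → Prop} [∀ w y, Decidable (P w y)] (hP : FP P) {V V' : List α → Y → List β} (h : FL V)
    (h' : FL V') : FL fun w y => if P w y then V w y else V' w y := by
  refine ⟨Lin4.Fn.congr' (Fn.ite hP h.len h'.len) fun w y => by split_ifs <;> rfl, fun b => ?_⟩
  have hP' : FP fun w (z : Y × ℕ) => P w z.1 := hP.comp Fn.id.fst
  refine ((hP'.and (h.get b)).or (hP'.not.and (h'.get b))).congr fun w z => ?_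
  split_ifs with hp
  · simp only [hp, true_and, not_true_eq_false, false_and, or_false]
  · simp only [hp, false_and, not_false_eq_true, true_and, false_or]

theorem FL.letter [Finite α] (h : α → List β) {g : List α → Y → ℕ} (hg : Fn g) :
    FL fun w y => ol h w[g w y]? := by
  have hα : Fintype α := Fintype.ofFinite α
  have hP : ∀ a : α, FP fun w y => w[g w y]? = some a := fun a => Fn.letterP a hg
  refine ⟨Lin4.Fn.congr' (f := fun w y => ∑ a : α, ind (w[g w y]? = some a) * (h a).length)
    (Fn.sumF _ fun a _ => Fn.mul (hP a) (Fn.const _)) ?_, fun b => ?_⟩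
  · intro w y
    cases hw : w[g w y]? with
    | none => simp [ol, ind]
    | some a =>
      rw [Finset.sum_eq_single a]
      · simp [ol, ind]
      · intro a' _ ha'
        have : ¬ (some a = some a') := fun h => ha' (Option.some.inj h).symm
        rw [ind_neg this, zero_mul]
      · intro h
        exact absurd (Finset.mem_univ a) h
  · have hg' : Fn fun w (z : Y × ℕ) => g w z.1 := hg.comp Fn.id.fst
    refine (FP.exFin (β := α) (P := fun a (w : List α) (z : Y × ℕ) =>
      w[g w z.1]? = some a ∧ (h a)[z.2]? = some b) fun a =>
        (Fn.letterP a hg').and ((Lin4.FL.const (h a)).get b)).congr fun w z => ?_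
    cases hw : w[g w z.1]? with
    | none => simp [ol]
    | some a =>
      simp only [ol]
      constructor
      · intro h1
        exact ⟨a, rfl, h1⟩
      · rintro ⟨a', h1, h2⟩
        rw [Option.some.inj h1]
        exact h2

/-- Membership of the word obtained by different substitutions in the two parts of a word. -/
theorem FP.split [Finite α] [Finite β] {S : Set (List β)} (hS : InL S) (hL hR : α → List β) :
    FP fun w (i : ℕ) => (w.take i).flatMap hL ++ (w.drop i).flatMap hR ∈ S := by
  have hj : Fn fun (w : List α) (z : ℕ × ℕ) => z.2 := Fn.id.snd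
  have hi : Fn fun (w : List α) (z : ℕ × ℕ) => z.1 := Fn.id.fst
  have h1 : FL fun (w : List α) (i : ℕ) => splitWord hL hR w i :=
    FL.bindV (n := fun w (_ : ℕ) => w.length) Fn.len
      (F := fun w (z : ℕ × ℕ) => if z.2 < z.1 then ol hL w[z.2]? else ol hR w[z.2]?)
      (FL.ite (FP.lt hj hi) (FL.letter hL hj) (FL.letter hR hj))
  refine (FP.inL_comp hS h1.len h1.get).congr fun w i => ?_
  rw [splitWord_eq]

end FL

end Pool.Agent.Helper75.Lin5
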