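import Pool.Agent.Helper75.Lin5.Lang
import Pool.Agent.Helper75.Lin5.Red
import Pool.Agent.Helper95.Lin3.Red

/-!
# Hardness
-/

namespace Pool.Agent.Helper75.Lin5

open Classical Pool.Agent.Helper38.LinL Pool.Agent.Helper38.LinL.LinearGrammar
open Pool.Agent.Helper75.Lin (Let4)
open Pool.Agent.Helper75.Lin4 (G4 tL tR im1 im2)
open Pool.Agent.Helper95.Lin3 (G3 Let3)
open Pool.Agent.Helper38.LinTwo (LGGR)

variable {α : Type}

section general

variable {U : Finset (List α)} {s : List α → Finset (List Bool)}

/-- The left blocks, as words. -/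
def lb (LB : Bool → List (List α)) (c : Bool) : List (α ⊕ Bool) := (LB c).flatten.map Sum.inl

/-- The right blocks, as words. -/
def rb (α : Type) (RB : Bool → List Bool) (c : Bool) : List (α ⊕ Bool) :=
  (RB c).reverse.map Sum.inr

theorem lb_flatMap (LB : Bool → List (List α)) (x : List Bool) :
    x.flatMap (lb LB) = ((x.flatMap LB).flatten).map Sum.inl := by
  induction x with
  | nil => rfl
  | cons c x ih =>
    rw [List.flatMap_cons, ih, List.flatMap_cons, List.flatten_append, List.map_append]
    rfl

theorem rb_flatMap (RB : Bool → List Bool) (z : List Bool) :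
    z.reverse.flatMap (rb α RB) = ((z.flatMap RB).reverse).map Sum.inr := by
  induction z with
  | nil => rfl
  | cons c z ih =>
    rw [List.reverse_cons, List.flatMap_append, ih]
    have h : (c :: z).flatMap RB = RB c ++ z.flatMap RB := List.flatMap_cons
    rw [h, List.reverse_append, List.map_append]
    simp [rb]

theorem exists_map {β : Type} {t : Bool → β} : ∀ {L : List β}, (∀ l ∈ L, l = t false ∨ l = t true) →
    ∃ x : List Bool, L = x.map t
  | [], _ => ⟨[], rfl⟩
  | l :: L, h => by
    obtain ⟨x, hx⟩ := exists_map (t := t) (L := L) fun l hl => h l (by simp [hl])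
    rcases h l (by simp) with h | h
    · exact ⟨false :: x, by rw [h, hx]; rfl⟩
    · exact ⟨true :: x, by rw [h, hx]; rfl⟩

/-- Letters on the left. -/
def fL4 (f : Bool → List (α ⊕ Bool)) : Let4 → List (α ⊕ Bool)
  | Let4.a => f false
  | Let4.b => f true
  | _ => []

/-- Letters on the right. -/
def fR4 (f : Bool → List (α ⊕ Bool)) : Let4 → List (α ⊕ Bool)
  | Let4.zero => f false
  | Let4.one => f true
  | _ => []

theorem fL4_map (f : Bool → List (α ⊕ Bool)) (x : List Bool) :
    (x.map tL).flatMap (fL4 f) = x.flatMap f := by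
  rw [List.flatMap_map]
  congr 1
  funext c
  cases c <;> rfl

theorem fR4_map (f : Bool → List (α ⊕ Bool)) (x : List Bool) :
    (x.map tR).flatMap (fR4 f) = x.flatMap f := by
  rw [List.flatMap_map]
  congr 1
  funext c
  cases c <;> rfl

/-- Reduction of the grammar `G4` to the grammar of a substitution. -/
theorem inL_G4_of_gadget [Finite α] (hU : IsCode U) (LB : Bool → List (List α))
    (hLB : ∀ c, ∀ u ∈ LB c, u ∈ U) (RB : Bool → List Bool)
    (h : ∀ x z : List Bool, Sb (fun u v => v ∈ s u) (x.flatMap LB) (z.flatMap RB) ↔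
      Lin4.Rd x z []) (hL : InL (subst U s).language) : InL G4.language := by
  have key : ∀ x z : List Bool, (x.map tL).flatMap (fL4 (lb LB)) ++
      ((z.map tR).reverse).flatMap (fR4 (rb α RB)) ∈ (subst U s).language ↔
      x.map tL ++ (z.map tR).reverse ∈ G4.language := by
    intro x z
    rw [Lin4.mem_language, ← h x z, fL4_map, ← List.map_reverse, fR4_map, lb_flatMap, rb_flatMap,
      mem_subst' hU]
    intro u hu
    obtain ⟨c, -, hc⟩ := List.mem_flatMap.1 hu
    exact hLB c u hc
  refine inL_of_FP _ (fun w _ => ∃ i < w.length + 1,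
    (∀ j < w.length, (j < i ∧ (w[j]? = some Let4.a ∨ w[j]? = some Let4.b)) ∨
      (¬ j < i ∧ (w[j]? = some Let4.zero ∨ w[j]? = some Let4.one))) ∧
    (w.take i).flatMap (fL4 (lb LB)) ++ (w.drop i).flatMap (fR4 (rb α RB)) ∈
      (subst U s).language) ?_ fun w => ?_
  · refine FP.bex (b := fun w (_ : Unit) => w.length + 1) (Fn.lenSucc)
      (P := fun w (z : Unit × ℕ) => (∀ j < w.length,
        (j < z.2 ∧ (w[j]? = some Let4.a ∨ w[j]? = some Let4.b)) ∨
        (¬ j < z.2 ∧ (w[j]? = some Let4.zero ∨ w[j]? = some Let4.one))) ∧
      (w.take z.2).flatMap (fL4 (lb LB)) ++ (w.drop z.2).flatMap (fR4 (rb α RB)) ∈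
        (subst U s).language) ?_
    refine FP.and ?_ ((FP.split hL _ _).comp (g := fun w (z : Unit × ℕ) => z.2) Fn.id.snd)
    refine FP.ball (b := fun w (_ : Unit × ℕ) => w.length) Fn.len
      (P := fun w (z : (Unit × ℕ) × ℕ) =>
        (z.2 < z.1.2 ∧ (w[z.2]? = some Let4.a ∨ w[z.2]? = some Let4.b)) ∨
        (¬ z.2 < z.1.2 ∧ (w[z.2]? = some Let4.zero ∨ w[z.2]? = some Let4.one))) ?_
    have hj : Fn fun (w : List Let4) (z : (Unit × ℕ) × ℕ) => z.2 := Fn.id.snd
    have hi : Fn fun (w : List Let4) (z : (Unit × ℕ) × ℕ) => z.1.2 := Fn.id.fst.snd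
    exact ((FP.lt hj hi).and ((Fn.letterP _ hj).or (Fn.letterP _ hj))).or
      ((FP.lt hj hi).not.and ((Fn.letterP _ hj).or (Fn.letterP _ hj)))
  · constructor
    · rintro ⟨i, -, h1, h2⟩
      obtain ⟨x, hx⟩ := exists_map (t := tL) (L := w.take i) (by
        intro l hl
        obtain ⟨j, hj, rfl⟩ := List.mem_iff_getElem.1 hl
        rw [List.length_take] at hj
        have h3 : (w.take i)[j]? = w[j]? := List.getElem?_take_of_lt (by omega)
        have h4 : w[j]? = some ((w.take i)[j]) := by
          rw [← h3, List.getElem?_eq_getElem]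
        rcases h1 j (by omega) with ⟨-, h5⟩ | ⟨h5, -⟩
        · rw [h4] at h5
          exact h5.imp Option.some.inj Option.some.inj
        · omega)
      obtain ⟨z', hz⟩ := exists_map (t := tR) (L := w.drop i) (by
        intro l hl
        obtain ⟨j, hj, rfl⟩ := List.mem_iff_getElem.1 hl
        rw [List.length_drop] at hj
        have h4 : w[i + j]? = some ((w.drop i)[j]) := by
          rw [← List.getElem?_drop, List.getElem?_eq_getElem]
        rcases h1 (i + j) (by omega) with ⟨h5, -⟩ | ⟨-, h5⟩
        · omega
        · rw [h4] at h5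
          exact h5.imp Option.some.inj Option.some.inj)
      have hw : w = x.map tL ++ (z'.reverse.map tR).reverse := by
        rw [List.map_reverse, List.reverse_reverse, ← hx, ← hz, List.take_append_drop]
      rw [hw, ← key, ← hx, List.map_reverse, List.reverse_reverse, ← hz]
      exact h2
    · intro hw
      obtain ⟨u, B, v, t, h1, h2, rfl⟩ := hw
      have ht : t = [] := Lin4.mem_term.1 h2
      subst ht
      obtain ⟨x, z, rfl, rfl, h4⟩ := Lin4.rd_of_derives h1
      rw [List.append_nil]
      refine ⟨x.length, by simp, ?_, ?_⟩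
      · intro j hj
        by_cases hjx : j < x.length
        · left
          refine ⟨hjx, ?_⟩
          rw [List.getElem?_append_left (by simpa using hjx), List.getElem?_map,
            List.getElem?_eq_getElem hjx]
          cases x[j]
          · left; rfl
          · right; rfl
        · right
          refine ⟨hjx, ?_⟩
          have hj2 : j - x.length < z.reverse.length := by
            simp at hj ⊢
            omega
          rw [List.getElem?_append_right (by simp; omega), List.length_map, ← List.map_reverse,
            List.getElem?_map, List.getElem?_eq_getElem hj2]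
          cases z.reverse[j - x.length]
          · left; rfl
          · right; rfl
      · have e1 : (x.map tL ++ (z.map tR).reverse).take x.length = x.map tL :=
          List.take_left' (by simp)
        have e2 : (x.map tL ++ (z.map tR).reverse).drop x.length = (z.map tR).reverse :=
          List.drop_left' (by simp)
        rw [e1, e2, key]
        exact Lin4.mem_language.2 h4

/-- The letters of `G3`. -/
def t3 : Bool → Let3
  | false => Let3.a
  | true => Let3.b

/-- Words for the letters of `G3`. -/
def f3 (f : Bool → List (α ⊕ Bool)) : Let3 → List (α ⊕ Bool)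
  | Let3.a => f false
  | Let3.b => f true
  | Let3.c => []

theorem f3_map (f : Bool → List (α ⊕ Bool)) (x : List Bool) :
    (x.map t3).flatMap (f3 f) = x.flatMap f := by
  rw [List.flatMap_map]
  congr 1
  funext c
  cases c <;> rfl

theorem c_not_mem_t3 (x : List Bool) : Let3.c ∉ x.map t3 := by
  intro h
  obtain ⟨c, -, hc⟩ := List.mem_map.1 h
  cases c <;> simp [t3] at hc

theorem rd3_mem {x y : List Let3} (h : Helper95.Lin3.Rd x y) : Let3.c ∉ x ∧ Let3.c ∉ y := by
  induction h with
  | nil => simp
  | a1 _ ih => simp [ih]
  | b1 _ ih => simp [ih]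
  | a2 _ ih => simp [ih]

theorem exists_t3 {L : List Let3} (h : Let3.c ∉ L) : ∃ x : List Bool, L = x.map t3 :=
  exists_map fun l hl => by
    cases l with
    | a => exact Or.inl rfl
    | b => exact Or.inr rfl
    | c => exact absurd hl h

/-- Reduction of the grammar `G3` to the grammar of a substitution. -/
theorem inL_G3_of_gadget [Finite α] (hU : IsCode U) (LB : Bool → List (List α))
    (hLB : ∀ c, ∀ u ∈ LB c, u ∈ U) (RB : Bool → List Bool)
    (h : ∀ x z : List Bool, Sb (fun u v => v ∈ s u) (x.flatMap LB) (z.flatMap RB) ↔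
      Helper95.Lin3.Rd (x.map t3) (z.map t3)) (hL : InL (subst U s).language) :
    InL G3.language := by
  have key : ∀ x z : List Bool, (x.map t3).flatMap (f3 (lb LB)) ++
      (Let3.c :: (z.map t3).reverse).flatMap (f3 (rb α RB)) ∈ (subst U s).language ↔
      x.map t3 ++ Let3.c :: (z.map t3).reverse ∈ G3.language := by
    intro x z
    have hz : Let3.c ∉ (z.map t3).reverse := by
      rw [List.mem_reverse]
      exact c_not_mem_t3 z
    rw [Helper95.Lin3.mem_lang3' (c_not_mem_t3 x) hz, List.reverse_reverse, ← h x z, f3_map,
      List.flatMap_cons, ← List.map_reverse, f3_map]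
    have e : f3 (rb α RB) Let3.c = [] := rfl
    rw [e, List.nil_append, lb_flatMap, rb_flatMap, mem_subst' hU]
    intro u hu
    obtain ⟨c, -, hc⟩ := List.mem_flatMap.1 hu
    exact hLB c u hc
  refine inL_of_FP _ (fun w _ => ∃ i < w.length, (w[i]? = some Let3.c ∧
    (∀ j < w.length, j = i ∨ ¬ w[j]? = some Let3.c)) ∧
    (w.take i).flatMap (f3 (lb LB)) ++ (w.drop i).flatMap (f3 (rb α RB)) ∈
      (subst U s).language) ?_ fun w => ?_
  · refine FP.bex (b := fun w (_ : Unit) => w.length) (Fn.len)
      (P := fun w (z : Unit × ℕ) => (w[z.2]? = some Let3.c ∧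
        (∀ j < w.length, j = z.2 ∨ ¬ w[j]? = some Let3.c)) ∧
      (w.take z.2).flatMap (f3 (lb LB)) ++ (w.drop z.2).flatMap (f3 (rb α RB)) ∈
        (subst U s).language) ?_
    refine FP.and (FP.and (Fn.letterP _ Fn.id.snd) ?_)
      ((FP.split hL _ _).comp (g := fun w (z : Unit × ℕ) => z.2) Fn.id.snd)
    refine FP.ball (b := fun w (_ : Unit × ℕ) => w.length) Fn.len
      (P := fun w (z : (Unit × ℕ) × ℕ) => z.2 = z.1.2 ∨ ¬ w[z.2]? = some Let3.c) ?_
    have hj : Fn fun (w : List Let3) (z : (Unit × ℕ) × ℕ) => z.2 := Fn.id.snd
    have hi : Fn fun (w : List Let3) (z : (Unit × ℕ) × ℕ) => z.1.2 := Fn.id.fst.snd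
    exact (FP.eq hj hi).or (Fn.letterP _ hj).not
  · constructor
    · rintro ⟨i, hi, ⟨h1, h2⟩, h3⟩
      have hsplit : w = w.take i ++ Let3.c :: w.drop (i + 1) := by
        conv_lhs => rw [← List.take_append_drop i w]
        congr 1
        rw [List.drop_eq_getElem_cons hi]
        congr 1
        rw [List.getElem?_eq_getElem hi] at h1
        exact Option.some.inj h1
      have hx0 : Let3.c ∉ w.take i := by
        intro hmem
        obtain ⟨j, hj, hc⟩ := List.mem_iff_getElem.1 hmem
        have hj' := hj
        rw [List.length_take] at hj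
        have h4 : w[j]? = some Let3.c := by
          rw [← List.getElem?_take_of_lt (i := j) (j := i) (by omega),
            List.getElem?_eq_getElem hj', hc]
        rcases h2 j (by omega) with h5 | h5
        · omega
        · exact h5 h4
      have hz0 : Let3.c ∉ w.drop (i + 1) := by
        intro hmem
        obtain ⟨j, hj, hc⟩ := List.mem_iff_getElem.1 hmem
        have hj' := hj
        rw [List.length_drop] at hj
        have h4 : w[i + 1 + j]? = some Let3.c := by
          rw [← List.getElem?_drop, List.getElem?_eq_getElem hj', hc]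
        rcases h2 (i + 1 + j) (by omega) with h5 | h5
        · omega
        · exact h5 h4
      obtain ⟨x, hx⟩ := exists_t3 hx0
      obtain ⟨z', hz⟩ := exists_t3 hz0
      have hz' : (z'.reverse.map t3).reverse = w.drop (i + 1) := by
        rw [List.map_reverse, List.reverse_reverse, hz]
      rw [hsplit, hx, ← hz', ← key, hz', ← hx]
      have hdrop : w.drop i = Let3.c :: w.drop (i + 1) := by
        rw [List.drop_eq_getElem_cons hi]
        congr 1
        rw [List.getElem?_eq_getElem hi] at h1
        exact Option.some.inj h1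
      rw [← hdrop]
      exact h3
    · intro hw
      obtain ⟨X, Y, hR, rfl⟩ := Helper95.Lin3.mem_lang3.1 hw
      obtain ⟨hX, hY⟩ := rd3_mem hR
      obtain ⟨x, rfl⟩ := exists_t3 hX
      obtain ⟨z, rfl⟩ := exists_t3 hY
      rw [List.append_assoc, List.singleton_append] at hw ⊢
      have hget : (x.map t3 ++ Let3.c :: (z.map t3).reverse)[x.length]? = some Let3.c := by
        rw [List.getElem?_append_right (by simp)]
        simp
      refine ⟨x.length, by simp, ⟨hget, ?_⟩, ?_⟩
      · intro j hj
        by_cases hjx : j = x.length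
        · exact Or.inl hjx
        · right
          intro hc
          rcases Nat.lt_or_ge j x.length with h5 | h5
          · rw [List.getElem?_append_left (by simpa using h5)] at hc
            exact c_not_mem_t3 x (List.mem_of_getElem? hc)
          · rw [List.getElem?_append_right (by simpa using h5), List.length_map] at hc
            have : j - x.length = (j - x.length - 1) + 1 := by omega
            rw [this, List.getElem?_cons_succ] at hc
            exact c_not_mem_t3 z (List.mem_reverse.1 (List.mem_of_getElem? hc))
      · have e1 : (x.map t3 ++ Let3.c :: (z.map t3).reverse).take x.length = x.map t3 :=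
          List.take_left' (by simp)
        have e2 : (x.map t3 ++ Let3.c :: (z.map t3).reverse).drop x.length =
            Let3.c :: (z.map t3).reverse := List.drop_left' (by simp)
        rw [e1, e2, key]
        exact hw

end general

section gadgets

theorem sb_single {A B : Type} {R : A → List B → Prop} {a : A} {x : List A} {y : List B} :
    Sb R (a :: x) y ↔ ∃ v y', R a v ∧ y = v ++ y' ∧ Sb R x y' := Iff.rfl

variable [DecidableEq α] (u1 u2 : List α)

/-- Two letters with two words each. -/
def S22 (u : List α) : Finset (List Bool) :=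
  if u = u1 then {[false], [false, false, true]}
  else if u = u2 then {[true], [false, false, true, true]} else ∅

/-- One letter with three words, and another one with one word. -/
def S31 (u : List α) : Finset (List Bool) :=
  if u = u1 then {[false], [false, true, true, false, false, true],
    [true, true, false, true, true, false, false, true, false]}
  else if u = u2 then {[true]} else ∅

/-- One letter with two words, and another one with one word. -/
def S21 (u : List α) : Finset (List Bool) :=
  if u = u1 then {[false], [false, false, false, true, true, true, false]}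
  else if u = u2 then {[true]} else ∅

/-- The left blocks. -/
def LB1 (c : Bool) : List (List α) := if c then [u2] else [u1]

/-- The left blocks for `S31`. -/
def LB31 (c : Bool) : List (List α) := if c then [u1, u2] else [u2, u2, u1]

/-- The right blocks for `S31`. -/
def c31 (c : Bool) : List Bool := if c then [false, true] else [true, true, false]

variable {u1 u2}

theorem sb22 (hne : u1 ≠ u2) (x : List Bool) : ∀ z : List Bool,
    Sb (fun u v => v ∈ S22 u1 u2 u) (x.flatMap (LB1 u1 u2)) z ↔ Lin4.Rd x z [] := by
  induction x with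
  | nil =>
    intro z
    show z = [] ↔ [] = z
    exact eq_comm
  | cons c x ih =>
    intro z
    have hmem : ∀ v, v ∈ S22 u1 u2 (if c then u2 else u1) ↔ v = im1 c ∨ v = im2 c := by
      intro v
      cases c
      · simp [S22, im1, im2]
      · simp [S22, im1, im2, hne.symm]
    have hcons : (c :: x).flatMap (LB1 u1 u2) = (if c then u2 else u1) :: x.flatMap (LB1 u1 u2) := by
      cases c <;> rfl
    rw [hcons, sb_single]
    constructor
    · rintro ⟨v, y', h1, h2, h3⟩
      rcases (hmem v).1 h1 with rfl | rfl
      · exact Or.inl ⟨y', h2, (ih y').1 h3⟩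
      · exact Or.inr ⟨y', h2, (ih y').1 h3⟩
    · rintro (⟨s1, h1, h2⟩ | ⟨s1, h1, h2⟩)
      · exact ⟨im1 c, s1, (hmem _).2 (Or.inl rfl), h1, (ih s1).2 h2⟩
      · exact ⟨im2 c, s1, (hmem _).2 (Or.inr rfl), h1, (ih s1).2 h2⟩

theorem sb21 (hne : u1 ≠ u2) (x : List Bool) : ∀ y : List Let3,
    Helper95.Lin3.Rd (x.map t3) y ↔ ∃ z : List Bool, y = z.map t3 ∧
      Sb (fun u v => v ∈ S21 u1 u2 u) (x.flatMap (LB1 u1 u2)) z := by
  induction x with
  | nil =>
    intro y
    constructor
    · intro h
      have h' : Helper95.Lin3.Rd [] y := h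
      cases h'
      exact ⟨[], rfl, rfl⟩
    · rintro ⟨z, rfl, h⟩
      have : z = [] := h
      subst this
      exact Helper95.Lin3.Rd.nil
  | cons c x ih =>
    intro y
    cases c with
    | false =>
      have hcons : (false :: x).flatMap (LB1 u1 u2) = u1 :: x.flatMap (LB1 u1 u2) := rfl
      have hmem : ∀ v, v ∈ S21 u1 u2 u1 ↔ v = [false] ∨
          v = [false, false, false, true, true, true, false] := by
        intro v
        simp [S21]
      rw [hcons]
      constructor
      · intro h
        have h' : Helper95.Lin3.Rd (Let3.a :: x.map t3) y := h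
        cases h' with
        | a1 h1 =>
          obtain ⟨z, rfl, h2⟩ := (ih _).1 h1
          exact ⟨false :: z, rfl, [false], z, (hmem _).2 (Or.inl rfl), rfl, h2⟩
        | a2 h1 =>
          obtain ⟨z, rfl, h2⟩ := (ih _).1 h1
          exact ⟨false :: false :: false :: true :: true :: true :: false :: z, rfl, _, z,
            (hmem _).2 (Or.inr rfl), rfl, h2⟩
      · rintro ⟨z, rfl, v, z', h1, rfl, h2⟩
        have h3 := (ih (z'.map t3)).2 ⟨z', rfl, h2⟩
        rcases (hmem v).1 h1 with rfl | rfl
        · exact Helper95.Lin3.Rd.a1 h3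
        · exact Helper95.Lin3.Rd.a2 h3
    | true =>
      have hcons : (true :: x).flatMap (LB1 u1 u2) = u2 :: x.flatMap (LB1 u1 u2) := rfl
      have hmem : ∀ v, v ∈ S21 u1 u2 u2 ↔ v = [true] := by
        intro v
        simp [S21, hne.symm]
      rw [hcons]
      constructor
      · intro h
        have h' : Helper95.Lin3.Rd (Let3.b :: x.map t3) y := h
        cases h' with
        | b1 h1 =>
          obtain ⟨z, rfl, h2⟩ := (ih _).1 h1
          exact ⟨true :: z, rfl, [true], z, (hmem _).2 rfl, rfl, h2⟩
      · rintro ⟨z, rfl, v, z', h1, rfl, h2⟩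
        have h3 := (ih (z'.map t3)).2 ⟨z', rfl, h2⟩
        rw [(hmem v).1 h1]
        exact Helper95.Lin3.Rd.b1 h3

theorem t3_injective : Function.Injective t3 := by decide

theorem sb21' (hne : u1 ≠ u2) (x z : List Bool) :
    Sb (fun u v => v ∈ S21 u1 u2 u) (x.flatMap (LB1 u1 u2)) z ↔
      Helper95.Lin3.Rd (x.map t3) (z.map t3) := by
  rw [sb21 hne]
  constructor
  · intro h
    exact ⟨z, rfl, h⟩
  · rintro ⟨z', h1, h2⟩
    rw [List.map_injective_iff.2 t3_injective h1]
    exact h2

theorem c31_false {z Y : List Bool} (h : z.flatMap c31 = false :: Y) :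
    ∃ z', z = true :: z' ∧ Y = true :: z'.flatMap c31 := by
  cases z with
  | nil => simp at h
  | cons b z =>
    cases b
    · simp [c31] at h
    · refine ⟨z, rfl, ?_⟩
      simpa [c31] using h.symm

theorem c31_true {z Y : List Bool} (h : z.flatMap c31 = true :: Y) :
    ∃ z', z = false :: z' ∧ Y = true :: false :: z'.flatMap c31 := by
  cases z with
  | nil => simp at h
  | cons b z =>
    cases b
    · refine ⟨z, rfl, ?_⟩
      simpa [c31] using h.symm
    · simp [c31] at h

theorem c31_nil {z : List Bool} (h : z.flatMap c31 = []) : z = [] := by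
  cases z with
  | nil => rfl
  | cons b z => cases b <;> simp [c31] at h

theorem sb31 (hne : u1 ≠ u2) (x : List Bool) : ∀ z : List Bool,
    Sb (fun u v => v ∈ S31 u1 u2 u) (x.flatMap (LB31 u1 u2)) (z.flatMap c31) ↔
      Lin4.Rd x z [] := by
  have hm1 : ∀ v, v ∈ S31 u1 u2 u1 ↔ v = [false] ∨ v = [false, true, true, false, false, true] ∨
      v = [true, true, false, true, true, false, false, true, false] := by
    intro v
    simp [S31]
  have hm2 : ∀ v, v ∈ S31 u1 u2 u2 ↔ v = [true] := by
    intro v
    simp [S31, hne.symm]
  induction x with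
  | nil =>
    intro z
    show z.flatMap c31 = [] ↔ [] = z
    constructor
    · intro h
      exact (c31_nil h).symm
    · rintro rfl
      rfl
  | cons c x ih =>
    intro z
    cases c with
    | false =>
      have hcons : (false :: x).flatMap (LB31 u1 u2) = u2 :: u2 :: u1 :: x.flatMap (LB31 u1 u2) :=
        rfl
      rw [hcons]
      constructor
      · rintro ⟨v1, y1, h1, e1, v2, y2, h2, e2, v3, y3, h3, e3, h4⟩
        rw [(hm2 v1).1 h1] at e1
        rw [(hm2 v2).1 h2] at e2
        rw [e2, e3] at e1
        simp only [List.cons_append, List.nil_append] at e1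
        obtain ⟨z1, rfl, e4⟩ := c31_true e1
        rcases (hm1 v3).1 h3 with rfl | rfl | rfl
        · simp only [List.cons_append, List.nil_append, List.cons.injEq, true_and] at e4
          rw [e4] at h4
          exact Or.inl ⟨z1, rfl, (ih z1).1 h4⟩
        · simp only [List.cons_append, List.nil_append, List.cons.injEq, true_and] at e4
          obtain ⟨z2, rfl, e5⟩ := c31_true e4.symm
          simp only [List.cons.injEq, true_and] at e5
          obtain ⟨z3, rfl, e6⟩ := c31_false e5.symm
          simp only [List.cons.injEq, true_and] at e6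
          rw [e6] at h4
          exact Or.inr ⟨z3, rfl, (ih z3).1 h4⟩
        · simp at e4
      · rintro (⟨s1, rfl, h2⟩ | ⟨s1, rfl, h2⟩)
        · exact ⟨[true], _, (hm2 _).2 rfl, rfl, [true], _, (hm2 _).2 rfl, rfl, [false], _,
            (hm1 _).2 (Or.inl rfl), rfl, (ih s1).2 h2⟩
        · exact ⟨[true], _, (hm2 _).2 rfl, rfl, [true], _, (hm2 _).2 rfl, rfl,
            [false, true, true, false, false, true], _, (hm1 _).2 (Or.inr (Or.inl rfl)), rfl,
            (ih s1).2 h2⟩
    | true =>
      have hcons : (true :: x).flatMap (LB31 u1 u2) = u1 :: u2 :: x.flatMap (LB31 u1 u2) := rfl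
      rw [hcons]
      constructor
      · rintro ⟨v1, y1, h1, e1, v2, y2, h2, e2, h4⟩
        rw [(hm2 v2).1 h2] at e2
        rw [e2] at e1
        rcases (hm1 v1).1 h1 with rfl | rfl | rfl
        · simp only [List.cons_append, List.nil_append] at e1
          obtain ⟨z1, rfl, e4⟩ := c31_false e1
          simp only [List.cons.injEq, true_and] at e4
          rw [e4] at h4
          exact Or.inl ⟨z1, rfl, (ih z1).1 h4⟩
        · simp only [List.cons_append, List.nil_append] at e1
          obtain ⟨z1, rfl, e4⟩ := c31_false e1
          simp only [List.cons.injEq, true_and] at e4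
          obtain ⟨z2, rfl, e5⟩ := c31_true e4.symm
          simp at e5
        · simp only [List.cons_append, List.nil_append] at e1
          obtain ⟨z1, rfl, e4⟩ := c31_true e1
          simp only [List.cons.injEq, true_and] at e4
          obtain ⟨z2, rfl, e5⟩ := c31_true e4.symm
          simp only [List.cons.injEq, true_and] at e5
          obtain ⟨z3, rfl, e6⟩ := c31_false e5.symm
          simp only [List.cons.injEq, true_and] at e6
          obtain ⟨z4, rfl, e7⟩ := c31_false e6.symm
          simp only [List.cons.injEq, true_and] at e7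
          rw [e7] at h4
          exact Or.inr ⟨z4, rfl, (ih z4).1 h4⟩
      · rintro (⟨s1, rfl, h2⟩ | ⟨s1, rfl, h2⟩)
        · exact ⟨[false], _, (hm1 _).2 (Or.inl rfl), rfl, [true], _, (hm2 _).2 rfl, rfl,
            (ih s1).2 h2⟩
        · exact ⟨[true, true, false, true, true, false, false, true, false], _,
            (hm1 _).2 (Or.inr (Or.inr rfl)), rfl, [true], _, (hm2 _).2 rfl, rfl, (ih s1).2 h2⟩

end gadgets

end Pool.Agent.Helper75.Lin5
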