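import Pool.Agent.Helper75.Lin5.Easy

/-!
# The language of the grammar of a substitution
-/

namespace Pool.Agent.Helper75.Lin5

open Classical Pool.Agent.Helper38.LinL Pool.Agent.Helper38.LinL.LinearGrammar

/-- Products of a relation. -/
def Sb {A B : Type} (R : A → List B → Prop) : List A → List B → Prop
  | [], y => y = []
  | a :: x, y => ∃ v y', R a v ∧ y = v ++ y' ∧ Sb R x y'

theorem sb_iff_list {A B : Type} {R : A → List B → Prop} {x : List A} : ∀ {y : List B},
    Sb R x y ↔ ∃ l : List (A × List B), (∀ r ∈ l, R r.1 r.2) ∧ l.map Prod.fst = x ∧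
      (l.map Prod.snd).flatten = y := by
  induction x with
  | nil =>
    intro y
    constructor
    · intro h
      have : y = [] := h
      exact ⟨[], by simp, rfl, this.symm⟩
    · rintro ⟨l, -, h2, h3⟩
      rw [List.map_eq_nil_iff] at h2
      subst h2
      exact h3.symm
  | cons a x ih =>
    intro y
    constructor
    · rintro ⟨v, y', h1, rfl, h2⟩
      obtain ⟨l, h3, h4, h5⟩ := ih.1 h2
      refine ⟨(a, v) :: l, ?_, by simp [h4], by simp [h5]⟩
      intro r hr
      rcases List.mem_cons.1 hr with rfl | hr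
      · exact h1
      · exact h3 r hr
    · rintro ⟨l, h1, h2, h3⟩
      cases l with
      | nil => simp at h2
      | cons r l =>
        simp only [List.map_cons, List.cons.injEq] at h2
        refine ⟨r.2, (l.map Prod.snd).flatten, ?_, ?_, ih.2 ⟨l, fun r hr => h1 r (by simp [hr]),
          h2.2, rfl⟩⟩
        · rw [← h2.1]
          exact h1 r (by simp)
        · rw [← h3]
          simp

section subst

variable {α : Type} {U : Finset (List α)} {s : List α → Finset (List Bool)}

theorem isRule_subst {r : List (α ⊕ Bool) × List (α ⊕ Bool)} :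
    IsRule (subst U s) () r ↔ ∃ u v, (u ∈ U ∧ v ∈ s u) ∧ r.1 = u.map Sum.inl ∧
      r.2 = v.reverse.map Sum.inr := by
  unfold IsRule subst
  simp only [Finset.mem_biUnion, Finset.mem_image, Prod.mk.injEq, true_and]
  constructor
  · rintro ⟨u, hu, v, hv, h1, h2⟩
    exact ⟨u, v, ⟨hu, hv⟩, h1.symm, h2.symm⟩
  · rintro ⟨u, v, ⟨hu, hv⟩, h1, h2⟩
    exact ⟨u, hu, v, hv, h1.symm, h2.symm⟩

theorem mem_term_subst {B : (subst U s).N} {t : List (α ⊕ Bool)} :
    (B, t) ∈ (subst U s).term ↔ t = [] := by
  change ((B, t) : Unit × List (α ⊕ Bool)) ∈ ({((), [])} : Finset (Unit × List (α ⊕ Bool))) ↔ _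
  simp only [Finset.mem_singleton, Prod.mk.injEq]
  exact ⟨fun h => h.2, fun h => ⟨rfl, h⟩⟩

theorem conv_list (l : List (List α × List Bool)) :
    (((l.map fun r => ((r.1.map Sum.inl : List (α ⊕ Bool)), (r.2.reverse.map Sum.inr :
      List (α ⊕ Bool)))).map Prod.fst).flatten = ((l.map Prod.fst).flatten).map Sum.inl) ∧
    (((l.map fun r => ((r.1.map Sum.inl : List (α ⊕ Bool)), (r.2.reverse.map Sum.inr :
      List (α ⊕ Bool)))).map Prod.snd).reverse.flatten =
        ((l.map Prod.snd).flatten.reverse).map Sum.inr) := by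
  induction l with
  | nil => simp
  | cons r l ih =>
    obtain ⟨h1, h2⟩ := ih
    constructor
    · simp only [List.map_cons, List.flatten_cons, List.map_append, h1]
    · simp only [List.map_cons, List.reverse_cons, List.flatten_append, List.flatten_cons,
        List.flatten_nil, List.append_nil, List.reverse_append, List.map_append, h2]

theorem exists_conv {l' : List (List (α ⊕ Bool) × List (α ⊕ Bool))}
    (h : ∀ r ∈ l', IsRule (subst U s) () r) :
    ∃ l : List (List α × List Bool), (∀ r ∈ l, r.1 ∈ U ∧ r.2 ∈ s r.1) ∧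
      l' = l.map fun r => (r.1.map Sum.inl, r.2.reverse.map Sum.inr) := by
  induction l' with
  | nil => exact ⟨[], by simp, rfl⟩
  | cons r l' ih =>
    obtain ⟨l, h1, h2⟩ := ih fun r hr => h r (by simp [hr])
    obtain ⟨u, v, h3, h4, h5⟩ := isRule_subst.1 (h r (by simp))
    refine ⟨(u, v) :: l, ?_, ?_⟩
    · intro r' hr'
      rcases List.mem_cons.1 hr' with rfl | hr'
      · exact h3
      · exact h1 r' hr'
    · rw [List.map_cons, ← h2]
      congr 1
      exact Prod.ext h4 h5

theorem mem_subst {w : List (α ⊕ Bool)} : w ∈ (subst U s).language ↔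
    ∃ l : List (List α × List Bool), (∀ r ∈ l, r.1 ∈ U ∧ r.2 ∈ s r.1) ∧
      w = ((l.map Prod.fst).flatten).map Sum.inl ++
        ((l.map Prod.snd).flatten.reverse).map Sum.inr := by
  constructor
  · rintro ⟨u, B, v, t, h1, h2, rfl⟩
    have ht : t = [] := mem_term_subst.1 h2
    subst ht
    obtain ⟨l', h3, rfl, rfl⟩ := derives_list (G := subst U s)
      (inferInstanceAs (Subsingleton Unit)) h1
    obtain ⟨l, h4, rfl⟩ := exists_conv h3
    refine ⟨l, h4, ?_⟩
    rw [List.append_nil, (conv_list l).1, (conv_list l).2]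
  · rintro ⟨l, h1, rfl⟩
    refine ⟨_, _, _, [], list_derives (G := subst U s) (A := ())
      (l := l.map fun r => (r.1.map Sum.inl, r.2.reverse.map Sum.inr)) ?_, mem_term_subst.2 rfl, ?_⟩
    · intro r hr
      obtain ⟨r', hr', rfl⟩ := List.mem_map.1 hr
      exact isRule_subst.2 ⟨r'.1, r'.2, h1 r' hr', rfl, rfl⟩
    · rw [List.append_nil, (conv_list l).1, (conv_list l).2]

theorem split_inj {A B : Type} : ∀ {x x' : List A} {y y' : List B},
    x.map Sum.inl ++ y.map Sum.inr = (x'.map Sum.inl ++ y'.map Sum.inr : List (A ⊕ B)) →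
      x = x' ∧ y = y'
  | [], [], y, y', h => ⟨rfl, (List.map_injective_iff.2 Sum.inr_injective) (by simpa using h)⟩
  | [], a :: x', y, y', h => by
    cases y with
    | nil => simp at h
    | cons b y => simp at h
  | a :: x, [], y, y', h => by
    cases y' with
    | nil => simp at h
    | cons b y => simp at h
  | a :: x, a' :: x', y, y', h => by
    simp only [List.map_cons, List.cons_append, List.cons.injEq, Sum.inl.injEq] at h
    obtain ⟨h1, h2⟩ := split_inj h.2
    exact ⟨by rw [h.1, h1], h2⟩

theorem mem_subst' (hU : IsCode U) {X : List (List α)} (hX : ∀ u ∈ X, u ∈ U) {y : List Bool} :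
    (X.flatten.map Sum.inl ++ y.reverse.map Sum.inr : List (α ⊕ Bool)) ∈ (subst U s).language ↔
      Sb (fun u v => v ∈ s u) X y := by
  rw [mem_subst, sb_iff_list]
  constructor
  · rintro ⟨l, h1, h2⟩
    obtain ⟨h3, h4⟩ := split_inj h2
    refine ⟨l, fun r hr => (h1 r hr).2, ?_, (List.reverse_injective h4).symm⟩
    refine (hU _ _ hX ?_ h3).symm
    intro u hu
    obtain ⟨r, hr, rfl⟩ := List.mem_map.1 hu
    exact (h1 r hr).1
  · rintro ⟨l, h1, rfl, rfl⟩
    exact ⟨l, fun r hr => ⟨hX _ (List.mem_map_of_mem hr), h1 r hr⟩, rfl⟩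

/-- The number of rules and the left words of the grammar. -/
theorem subst_data (hU : IsCode U) (hs : ∀ u ∈ U, 1 ≤ (s u).card) :
    FreeLeft (subst U s) ∧ (leftWords (subst U s)).card = U.card ∧
      (subst U s).rules.card = ∑ u ∈ U, (s u).card := by
  have hinl : Function.Injective (List.map (Sum.inl : α → α ⊕ Bool)) :=
    List.map_injective_iff.2 Sum.inl_injective
  have hinr : Function.Injective (List.map (Sum.inr : Bool → α ⊕ Bool)) :=
    List.map_injective_iff.2 Sum.inr_injective
  have hlw : leftWords (subst U s) = U.image (List.map Sum.inl) := by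
    ext w
    simp only [leftWords, Finset.mem_image]
    constructor
    · rintro ⟨⟨A, u, B, v⟩, hr, rfl⟩
      have hr' : IsRule (subst U s) () (u, v) := hr
      obtain ⟨u', v', h1, h2, -⟩ := isRule_subst.1 hr'
      exact ⟨u', h1.1, h2.symm⟩
    · rintro ⟨u, hu, rfl⟩
      obtain ⟨v, hv⟩ := Finset.card_pos.1 (lt_of_lt_of_le Nat.zero_lt_one (hs u hu))
      have : IsRule (subst U s) () (u.map Sum.inl, v.reverse.map Sum.inr) :=
        isRule_subst.2 ⟨u, v, ⟨hu, hv⟩, rfl, rfl⟩
      exact ⟨_, this, rfl⟩
  refine ⟨⟨inferInstanceAs (Subsingleton Unit), ?_⟩, ?_, ?_⟩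
  · rw [hlw]
    intro l l' hl hl' he
    have key : ∀ l : List (List (α ⊕ Bool)), (∀ u ∈ l, u ∈ U.image (List.map Sum.inl)) →
        ∃ l0 : List (List α), (∀ u ∈ l0, u ∈ U) ∧ l = l0.map (List.map Sum.inl) := by
      intro l
      induction l with
      | nil => exact fun _ => ⟨[], by simp, rfl⟩
      | cons u l ih =>
        intro h
        obtain ⟨l0, h1, h2⟩ := ih fun u hu => h u (by simp [hu])
        obtain ⟨u0, h3, h4⟩ := Finset.mem_image.1 (h u (by simp))
        refine ⟨u0 :: l0, ?_, by rw [List.map_cons, h4, h2]⟩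
        intro x hx
        rcases List.mem_cons.1 hx with rfl | hx
        · exact h3
        · exact h1 x hx
    obtain ⟨l0, h1, rfl⟩ := key l hl
    obtain ⟨l0', h1', rfl⟩ := key l' hl'
    rw [← List.map_flatten, ← List.map_flatten] at he
    rw [hU l0 l0' h1 h1' (hinl he)]
  · rw [hlw, Finset.card_image_of_injective _ hinl]
  · unfold subst
    rw [Finset.card_biUnion]
    · refine Finset.sum_congr rfl fun u _ => Finset.card_image_of_injective _ fun v v' h => ?_
      simp only [Prod.mk.injEq, true_and] at h
      exact List.reverse_injective (hinr h)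
    · intro u _ u' _ hne
      show Disjoint _ _
      rw [Finset.disjoint_left]
      intro r hr hr'
      obtain ⟨v, -, rfl⟩ := Finset.mem_image.1 hr
      obtain ⟨v', -, h⟩ := Finset.mem_image.1 hr'
      simp only [Prod.mk.injEq, true_and] at h
      exact hne (hinl h.1).symm

end subst

section enc

/-- The code of a letter. -/
def cd : Bool → List Bool
  | false => [false, false]
  | true => [false, true]

theorem cd_prefix : ∀ {v z y : List Bool}, v.flatMap cd ++ y = z.flatMap cd →
    ∃ z', z = v ++ z' ∧ y = z'.flatMap cd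
  | [], z, y, h => ⟨z, rfl, h⟩
  | b :: v, [], y, h => by cases b <;> simp [cd] at h
  | b :: v, b' :: z, y, h => by
    have hb : b = b' ∧ v.flatMap cd ++ y = z.flatMap cd := by
      cases b <;> cases b' <;> simp [cd] at h ⊢ <;> exact h
    obtain ⟨z', h1, h2⟩ := cd_prefix hb.2
    exact ⟨z', by rw [h1, hb.1]; rfl, h2⟩

/-- Words which cannot be used. -/
def pad (k : ℕ) : List Bool := List.replicate (k + 1) true

theorem pad_ne {k : ℕ} {z y : List Bool} (h : pad k ++ y = z.flatMap cd) : False := by
  cases z with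
  | nil => simp [pad, List.replicate_succ] at h
  | cons b z => cases b <;> simp [pad, List.replicate_succ, cd] at h

theorem cd_injective : Function.Injective fun v : List Bool => v.flatMap cd := by
  intro v v' h
  obtain ⟨z', h1, h2⟩ := cd_prefix (v := v) (z := v') (y := []) (by simpa using h)
  cases z' with
  | nil => simpa using h1.symm
  | cons b z => cases b <;> simp [cd] at h2

theorem pad_injective : Function.Injective pad := by
  intro k k' h
  have := congrArg List.length h
  simp only [pad, List.length_replicate] at this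
  omega

variable {α : Type}

/-- The substitution `S0`, encoded, with `m u` words for each `u`. -/
noncomputable def mkS (S0 : List α → Finset (List Bool)) (m : List α → ℕ) (u : List α) :
    Finset (List Bool) :=
  (S0 u).image (fun v => v.flatMap cd) ∪ (Finset.range (m u - (S0 u).card)).image pad

theorem card_mkS {S0 : List α → Finset (List Bool)} {m : List α → ℕ} {u : List α}
    (h : (S0 u).card ≤ m u) : (mkS S0 m u).card = m u := by
  unfold mkS
  rw [Finset.card_union_of_disjoint, Finset.card_image_of_injective _ cd_injective,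
    Finset.card_image_of_injective _ pad_injective, Finset.card_range]
  · omega
  · rw [Finset.disjoint_left]
    intro v hv hv'
    obtain ⟨v0, -, rfl⟩ := Finset.mem_image.1 hv
    obtain ⟨k, -, hk⟩ := Finset.mem_image.1 hv'
    exact pad_ne (k := k) (z := v0) (y := []) (by simpa using hk)

theorem sb_mkS {S0 : List α → Finset (List Bool)} {m : List α → ℕ} {X : List (List α)} :
    ∀ {z : List Bool}, Sb (fun u v => v ∈ mkS S0 m u) X (z.flatMap cd) ↔
      Sb (fun u v => v ∈ S0 u) X z := by
  induction X with
  | nil =>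
    intro z
    show z.flatMap cd = [] ↔ z = []
    constructor
    · intro h
      cases z with
      | nil => rfl
      | cons b z => cases b <;> simp [cd] at h
    · rintro rfl
      rfl
  | cons u X ih =>
    intro z
    constructor
    · rintro ⟨v, y', h1, h2, h3⟩
      unfold mkS at h1
      rcases Finset.mem_union.1 h1 with h1 | h1
      · obtain ⟨v0, h4, rfl⟩ := Finset.mem_image.1 h1
        obtain ⟨z', h5, h6⟩ := cd_prefix h2.symm
        rw [h6] at h3
        exact ⟨v0, z', h4, h5, ih.1 h3⟩
      · obtain ⟨k, -, rfl⟩ := Finset.mem_image.1 h1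
        exact (pad_ne h2.symm).elim
    · rintro ⟨v, z', h1, rfl, h3⟩
      exact ⟨v.flatMap cd, z'.flatMap cd, Finset.mem_union_left _ (Finset.mem_image_of_mem _ h1),
        by rw [List.flatMap_append], ih.2 h3⟩

end enc

end Pool.Agent.Helper75.Lin5
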