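import Pool.Agent.Helper75.Lin5.Hard
import Pool.Agent.Helper75.Lin5.Grid
import Pool.Agent.Helper75.Lin4.Final

/-!
# The trichotomy
-/

namespace Pool.Agent.Helper75.Lin5

open Classical Pool.Agent.Helper38.LinL Pool.Agent.Helper38.LinL.LinearGrammar
open Pool.Agent.Helper75.Lin (Let4)
open Pool.Agent.Helper75.Lin4 (G4)
open Pool.Agent.Helper95.Lin3 (G3)
open Pool.Agent.Helper38.LinTwo (LGGR)

variable {α β : Type} {U : Finset (List α)} {m : List α → ℕ}

theorem inl_map_injective : Function.Injective (List.map (Sum.inl : α → α ⊕ β)) :=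
  List.map_injective_iff.2 Sum.inl_injective

theorem mem_left {G : LinearGrammar (α ⊕ β)} (h : Profile U m G) {w : List (α ⊕ β)} :
    w ∈ leftWords G ↔ ∃ u ∈ U, u.map Sum.inl = w := by
  rw [← Finset.mem_coe, h.left]
  rfl

theorem isCode_left (hU : IsCode U) {G : LinearGrammar (α ⊕ β)} (h : Profile U m G) :
    IsCode (leftWords G) := by
  intro l l' hl hl' he
  have key : ∀ l : List (List (α ⊕ β)), (∀ u ∈ l, u ∈ leftWords G) →
      ∃ l0 : List (List α), (∀ u ∈ l0, u ∈ U) ∧ l = l0.map (List.map Sum.inl) := by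
    intro l
    induction l with
    | nil => exact fun _ => ⟨[], by simp, rfl⟩
    | cons u l ih =>
      intro h'
      obtain ⟨l0, h1, h2⟩ := ih fun u hu => h' u (by simp [hu])
      obtain ⟨u0, h3, h4⟩ := (mem_left h).1 (h' u (by simp))
      refine ⟨u0 :: l0, ?_, by rw [List.map_cons, h4, h2]⟩
      intro x hx
      rcases List.mem_cons.1 hx with rfl | hx
      · exact h3
      · exact h1 x hx
  obtain ⟨l0, h1, rfl⟩ := key l hl
  obtain ⟨l0', h1', rfl⟩ := key l' hl'
  rw [← List.map_flatten, ← List.map_flatten] at he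
  rw [hU l0 l0' h1 h1' (inl_map_injective he)]

theorem card_rules {γ : Type} (G : LinearGrammar γ) :
    G.rules.card = ∑ u ∈ leftWords G, leftMult G u := by
  have h1 : ∀ r ∈ G.rules, r.2.1 ∈ leftWords G := fun r hr => Finset.mem_image_of_mem _ hr
  exact @Finset.card_eq_sum_card_fiberwise (G.N × List γ × G.N × List γ) (List γ) _
    (fun r => r.2.1) G.rules (leftWords G) h1

theorem leftMult_eq {γ : Type} {G : LinearGrammar γ} {u : List γ}
    {T : Finset (G.N × List γ × G.N × List γ)} (h : ∀ r, r ∈ T ↔ r ∈ G.rules ∧ r.2.1 = u) :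
    leftMult G u = T.card := by
  unfold leftMult
  congr 1
  ext r
  rw [Finset.mem_filter, h]

theorem left_eq {G : LinearGrammar (α ⊕ β)} (h : Profile U m G) :
    leftWords G = U.map ⟨List.map Sum.inl, inl_map_injective⟩ := by
  ext w
  rw [mem_left h, Finset.mem_map]
  rfl

/-- The data of a grammar with a given profile. -/
theorem Profile.data (hU : IsCode U) {G : LinearGrammar (α ⊕ β)} (h : Profile U m G) :
    FreeLeft G ∧ (leftWords G).card = U.card ∧ G.rules.card = ∑ u ∈ U, m u := by
  refine ⟨⟨h.one, isCode_left hU h⟩, ?_, ?_⟩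
  · rw [left_eq h, Finset.card_map]
  · rw [card_rules, left_eq h, Finset.sum_map]
    exact Finset.sum_congr rfl h.mult

theorem profile_subst {s : List α → Finset (List Bool)} (hm : ∀ u ∈ U, 1 ≤ m u)
    (hs : ∀ u ∈ U, (s u).card = m u) : Profile U m (subst U s) := by
  have hinr : Function.Injective (List.map (Sum.inr : Bool → α ⊕ Bool)) :=
    List.map_injective_iff.2 Sum.inr_injective
  refine ⟨inferInstanceAs (Subsingleton Unit), ?_, ?_⟩
  · ext w
    simp only [leftWords, Finset.mem_coe, Finset.mem_image, Set.mem_image]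
    constructor
    · rintro ⟨⟨A, u, B, v⟩, hr, rfl⟩
      have hr' : IsRule (subst U s) () (u, v) := hr
      obtain ⟨u', v', h1, h2, -⟩ := isRule_subst.1 hr'
      exact ⟨u', h1.1, h2.symm⟩
    · rintro ⟨u, hu, rfl⟩
      obtain ⟨v, hv⟩ := Finset.card_pos.1 (show 0 < (s u).card by
        rw [hs u hu]
        exact hm u hu)
      have : IsRule (subst U s) () (u.map Sum.inl, v.reverse.map Sum.inr) :=
        isRule_subst.2 ⟨u, v, ⟨hu, hv⟩, rfl, rfl⟩
      exact ⟨_, this, rfl⟩
  · intro u hu
    rw [← hs u hu]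
    let f : List Bool ↪ (subst U s).N × List (α ⊕ Bool) × (subst U s).N × List (α ⊕ Bool) :=
      ⟨fun v => ((), u.map Sum.inl, (), v.reverse.map Sum.inr), fun v v' h => by
        simp only [Prod.mk.injEq, true_and] at h
        exact List.reverse_injective (hinr h)⟩
    refine Eq.trans (leftMult_eq fun r => ?_) (Finset.card_map f)
    rw [Finset.mem_map]
    unfold subst
    simp only [Finset.mem_biUnion, Finset.mem_image]
    constructor
    · rintro ⟨v, h2, rfl⟩
      exact ⟨⟨u, hu, v, h2, rfl⟩, rfl⟩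
    · rintro ⟨⟨u', h1, v, h2, rfl⟩, h3⟩
      have : u' = u := inl_map_injective h3
      subst this
      exact ⟨v, h2, rfl⟩

theorem exists_two {V : Finset (List α)} (h : V.card < ∑ u ∈ V, m u) : ∃ u ∈ V, 2 ≤ m u := by
  by_contra hc
  push Not at hc
  have : ∑ u ∈ V, m u ≤ ∑ u ∈ V, 1 := Finset.sum_le_sum fun u hu => by
    have := hc u hu
    omega
  simp at this
  omega

theorem exists_ne {V : Finset (List α)} (h : 2 ≤ V.card) (u : List α) : ∃ u' ∈ V, u ≠ u' := by
  by_contra hc
  push Not at hc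
  have : V ⊆ {u} := fun x hx => by
    rw [Finset.mem_singleton]
    exact (hc x hx).symm
  have := Finset.card_le_card this
  simp at this
  omega

/-- Hardness from a substitution for two words, `G4`. -/
theorem hard4 [Finite α] (hU : IsCode U) (hm : ∀ u ∈ U, 1 ≤ m u)
    (S0 : List α → Finset (List Bool)) (h0 : ∀ u ∈ U, (S0 u).card ≤ m u)
    (LB : Bool → List (List α)) (hLB : ∀ c, ∀ u ∈ LB c, u ∈ U) (RB : Bool → List Bool)
    (h : ∀ x z : List Bool, Sb (fun u v => v ∈ S0 u) (x.flatMap LB) (z.flatMap RB) ↔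
      Lin4.Rd x z []) :
    Profile U m (subst U (mkS S0 m)) ∧ (InL (subst U (mkS S0 m)).language → InL G4.language) := by
  refine ⟨profile_subst hm fun u hu => card_mkS (h0 u hu), fun hL => ?_⟩
  refine inL_G4_of_gadget hU LB hLB (fun c => (RB c).flatMap cd) (fun x z => ?_) hL
  rw [← h x z, ← sb_mkS (S0 := S0) (m := m), List.flatMap_assoc]

/-- Hardness from a substitution for two words, `G3`. -/
theorem hard3 [Finite α] (hU : IsCode U) (hm : ∀ u ∈ U, 1 ≤ m u)
    (S0 : List α → Finset (List Bool)) (h0 : ∀ u ∈ U, (S0 u).card ≤ m u)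
    (LB : Bool → List (List α)) (hLB : ∀ c, ∀ u ∈ LB c, u ∈ U)
    (h : ∀ x z : List Bool, Sb (fun u v => v ∈ S0 u) (x.flatMap LB) z ↔
      Helper95.Lin3.Rd (x.map t3) (z.map t3)) :
    Profile U m (subst U (mkS S0 m)) ∧ (InL (subst U (mkS S0 m)).language → InL G3.language) := by
  refine ⟨profile_subst hm fun u hu => card_mkS (h0 u hu), fun hL => ?_⟩
  refine inL_G3_of_gadget hU LB hLB cd (fun x z => ?_) hL
  rw [← h x z, ← sb_mkS (S0 := S0) (m := m)]

theorem exists_hard4 [Finite α] (hU : IsCode U) (hm : ∀ u ∈ U, 1 ≤ m u) (h2 : 2 ≤ U.card)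
    (h : U.card + 2 ≤ ∑ u ∈ U, m u) :
    ∃ G : LinearGrammar (α ⊕ Bool), Profile U m G ∧ (InL G.language → InL G4.language) := by
  obtain ⟨u1, hu1, hm1⟩ := exists_two (m := m) (V := U) (by omega)
  by_cases h3 : 3 ≤ m u1
  · obtain ⟨u2, hu2, hne⟩ := exists_ne h2 u1
    refine ⟨_, hard4 hU hm (S31 u1 u2) ?_ (LB31 u1 u2) ?_ c31 (sb31 hne)⟩
    · intro u hu
      unfold S31
      split_ifs with e1 e2
      · rw [e1]
        exact le_trans Finset.card_le_three h3
      · simpa using hm u hu
      · simp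
    · intro c u hu
      cases c
      · simp [LB31] at hu
        rcases hu with rfl | rfl
        · exact hu2
        · exact hu1
      · simp [LB31] at hu
        rcases hu with rfl | rfl
        · exact hu1
        · exact hu2
  · obtain ⟨u2, hu2, hm2⟩ := exists_two (m := m) (V := U.erase u1) (by
      have := Finset.add_sum_erase U m hu1
      rw [Finset.card_erase_of_mem hu1]
      omega)
    have hne : u1 ≠ u2 := (Finset.ne_of_mem_erase hu2).symm
    refine ⟨_, hard4 hU hm (S22 u1 u2) ?_ (LB1 u1 u2) ?_ (fun c => [c]) ?_⟩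
    · intro u hu
      unfold S22
      split_ifs with e1 e2
      · rw [e1]
        exact le_trans Finset.card_le_two hm1
      · rw [e2]
        exact le_trans Finset.card_le_two hm2
      · simp
    · intro c u hu
      cases c
      · simp [LB1] at hu
        rw [hu]
        exact hu1
      · simp [LB1] at hu
        rw [hu]
        exact Finset.mem_of_mem_erase hu2
    · intro x z
      rw [List.flatMap_singleton']
      exact sb22 hne x z

theorem exists_hard3 [Finite α] (hU : IsCode U) (hm : ∀ u ∈ U, 1 ≤ m u) (h2 : 2 ≤ U.card)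
    (h : ∑ u ∈ U, m u = U.card + 1) :
    ∃ G : LinearGrammar (α ⊕ Bool), Profile U m G ∧ (InL G.language → InL G3.language) := by
  obtain ⟨u1, hu1, hm1⟩ := exists_two (m := m) (V := U) (by omega)
  obtain ⟨u2, hu2, hne⟩ := exists_ne h2 u1
  refine ⟨_, hard3 hU hm (S21 u1 u2) ?_ (LB1 u1 u2) ?_ (sb21' hne)⟩
  · intro u hu
    unfold S21
    split_ifs with e1 e2
    · rw [e1]
      exact le_trans Finset.card_le_two hm1
    · simpa using hm u hu
    · simp
  · intro c u hu
    cases c
    · simp [LB1] at hu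
      rw [hu]
      exact hu1
    · simp [LB1] at hu
      rw [hu]
      exact hu2

end Pool.Agent.Helper75.Lin5
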